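import Mathlib

/-!
# An infinite antichain of finite graphs in the homomorphism order

Shift graphs: the vertices are the strictly increasing `k`-tuples of elements of `Fin N`, and the edges
join `(z 0, ..., z (k-1))` with `(z 1, ..., z k)`. They have no short odd closed walk and large
chromatic number.
-/

set_option autoImplicit false

namespace Pool.Agent.V6.ClA

/-- strictly increasing `k`-tuples of elements of `Fin N` -/
abbrev Tup (N k : ℕ) : Type := {x : Fin k → Fin N // StrictMono x}

/-- `y` is the shift of `x` -/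
def Sh {N k : ℕ} (x y : Tup N k) : Prop :=
  ∃ z : Tup N (k + 1), (∀ i : Fin k, x.1 i = z.1 i.castSucc) ∧ ∀ i : Fin k, y.1 i = z.1 i.succ

/-- the shift graph -/
def shiftGraph (N k : ℕ) : SimpleGraph (Tup N k) := SimpleGraph.fromRel Sh

lemma sh_index {N k : ℕ} {x y : Tup N k} (h : Sh x y) {i j : Fin k} (hij : (j : ℕ) = i + 1) :
    y.1 i = x.1 j := by
  obtain ⟨z, h1, h2⟩ := h
  rw [h1, h2]
  exact congrArg z.1 (Fin.ext (by simp [hij]))

lemma walk_shift {N k : ℕ} {x y : Tup N k} (p : (shiftGraph N k).Walk x y) :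
    ∃ s : ℤ, |s| ≤ p.length ∧ (2 : ℤ) ∣ s - p.length ∧ ∀ i j : Fin k, (i : ℤ) = j + s →
      (p.length : ℤ) ≤ i → (i : ℤ) + p.length < k → x.1 i = y.1 j := by
  induction p with
  | nil =>
    refine ⟨0, by simp, by simp, fun i j h _ _ => ?_⟩
    rw [Fin.ext (by omega : (i : ℕ) = j)]
  | cons h p ih =>
    obtain ⟨s, hs, hd, hx⟩ := ih
    have hab := abs_le.mp hs
    rcases (h.2 : Sh _ _ ∨ Sh _ _) with h' | h'
    · refine ⟨s + 1, ?_, ?_, fun i j hij h1 h2 => ?_⟩
      · rw [SimpleGraph.Walk.length_cons]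
        push_cast
        exact abs_le.mpr ⟨by omega, by omega⟩
      · rw [SimpleGraph.Walk.length_cons]
        push_cast
        omega
      · rw [SimpleGraph.Walk.length_cons] at h1 h2
        push_cast at h1 h2
        have hi := i.2
        rw [← sh_index h' (i := ⟨i - 1, by omega⟩) (j := i) (by simp only; omega)]
        exact hx _ _ (by simp only; omega) (by simp only; omega) (by simp only; omega)
    · refine ⟨s - 1, ?_, ?_, fun i j hij h1 h2 => ?_⟩
      · rw [SimpleGraph.Walk.length_cons]
        push_cast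
        exact abs_le.mpr ⟨by omega, by omega⟩
      · rw [SimpleGraph.Walk.length_cons]
        push_cast
        omega
      · rw [SimpleGraph.Walk.length_cons] at h1 h2
        push_cast at h1 h2
        have hi := i.2
        rw [sh_index h' (i := i) (j := ⟨i + 1, by omega⟩) (by simp only)]
        exact hx _ _ (by simp only; omega) (by simp only; omega) (by simp only; omega)

lemma no_odd {N k : ℕ} {x : Tup N k} (p : (shiftGraph N k).Walk x x)
    (hk : 2 * p.length + 1 ≤ k) : Even p.length := by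
  by_contra hodd
  rw [Nat.not_even_iff_odd] at hodd
  obtain ⟨l, hl⟩ := hodd
  obtain ⟨s, hs, hd, hx⟩ := walk_shift p
  have hab := abs_le.mp hs
  have hs0 : s ≠ 0 := by
    rintro rfl
    omega
  have h1 := hx ⟨p.length, by omega⟩ ⟨((p.length : ℤ) - s).toNat, by omega⟩ (by simp only; omega)
    (by simp only; omega) (by simp only; omega)
  have h2 := Fin.ext_iff.mp (x.2.injective h1)
  simp only at h2
  omega

/-- constant tuples of length one -/
lemma strictMono_one {N : ℕ} (a : Fin N) : StrictMono (fun _ : Fin (0 + 1) => a) := by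
  intro i j hij
  exact absurd hij (by omega)

lemma not_colorable (k : ℕ) : ∀ (α : Type) [Finite α],
    ∃ N, IsEmpty ((shiftGraph N (k + 1)).Coloring α) := by
  induction k with
  | zero =>
    intro α _
    have : Fintype α := Fintype.ofFinite α
    refine ⟨Fintype.card α + 1, ⟨fun c => ?_⟩⟩
    obtain ⟨a, b, hab, hc⟩ := Fintype.exists_ne_map_eq_of_card_lt
      (fun a : Fin (Fintype.card α + 1) =>
        c ⟨fun _ : Fin (0 + 1) => a, strictMono_one _⟩) (by simp)
    wlog hlt : a < b generalizing a b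
    · exact this b a hab.symm hc.symm (lt_of_le_of_ne (not_lt.mp hlt) hab.symm)
    refine c.valid (v := ⟨fun _ : Fin (0 + 1) => a, strictMono_one _⟩)
      (w := ⟨fun _ : Fin (0 + 1) => b, strictMono_one _⟩) ⟨?_, Or.inl ?_⟩ hc
    · intro h
      apply hab
      exact congrFun (congrArg Subtype.val h) 0
    · refine ⟨⟨![a, b], ?_⟩, fun i => ?_, fun i => ?_⟩
      · rw [Fin.strictMono_iff_lt_succ]
        intro i
        fin_cases i
        exact hlt
      · fin_cases i
        rfl
      · fin_cases i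
        rfl
  | succ k ih =>
    intro α _
    obtain ⟨N, hN⟩ := ih (Set α)
    refine ⟨N, ⟨fun c => hN.false ?_⟩⟩
    have key : ∀ x y : Tup N (k + 1), Sh x y →
        {a | ∃ z : Tup N (k + 1 + 1), (∀ i, x.1 i = z.1 i.castSucc) ∧ c z = a} ≠
        {a | ∃ z : Tup N (k + 1 + 1), (∀ i, y.1 i = z.1 i.castSucc) ∧ c z = a} := by
      rintro x y ⟨z, hz1, hz2⟩ heq
      have h1 : c z ∈ {a | ∃ z : Tup N (k + 1 + 1), (∀ i, x.1 i = z.1 i.castSucc) ∧ c z = a} :=
        ⟨z, hz1, rfl⟩
      rw [heq] at h1
      obtain ⟨z', hz', hc⟩ := h1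
      have hlt : ∀ i, z.1 i < z'.1 i := by
        intro i
        refine Fin.lastCases ?_ (fun j => ?_) i
        · have e1 : z.1 (Fin.last (k + 1)) = z'.1 (Fin.last k).castSucc := by
            rw [← hz', hz2]
            rfl
          rw [e1]
          exact z'.2 (Fin.castSucc_lt_last _)
        · rw [← hz', hz2]
          exact z.2 (Fin.castSucc_lt_succ)
      refine c.valid (v := z) (w := z') ⟨?_, Or.inl ?_⟩ hc.symm
      · intro h
        have := hlt 0
        rw [h] at this
        exact lt_irrefl _ this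
      · refine ⟨⟨Fin.cons (z.1 0) z'.1, ?_⟩, fun i => ?_, fun i => ?_⟩
        · rw [Fin.strictMono_iff_lt_succ]
          intro i
          rw [Fin.cons_succ]
          refine Fin.cases ?_ (fun j => ?_) i
          · exact hlt 0
          · rw [← Fin.succ_castSucc, Fin.cons_succ]
            exact z'.2 (Fin.castSucc_lt_succ)
        · refine Fin.cases ?_ (fun j => ?_) i
          · rfl
          · show z.1 j.succ = (Fin.cons (z.1 0) z'.1 : Fin (k + 1 + 1 + 1) → Fin N) j.succ.castSucc
            rw [← Fin.succ_castSucc, Fin.cons_succ, ← hz', hz2]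
        · rfl
    refine SimpleGraph.Coloring.mk
      (fun x => {a | ∃ z : Tup N (k + 1 + 1), (∀ i, x.1 i = z.1 i.castSucc) ∧ c z = a}) ?_
    intro x y hxy
    rcases (hxy.2 : Sh _ _ ∨ Sh _ _) with h | h
    · exact key x y h
    · exact (key y x h).symm

/-- For every `b ≥ 2` there is a finite graph with an odd closed walk, without odd closed walks of
length at most `b` and without a colouring with `b` colours. -/
lemma exists_graph (b : ℕ) (hb : 2 ≤ b) : ∃ (n : ℕ) (G : SimpleGraph (Fin n)) (m : ℕ),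
    (∃ (u : Fin n) (w : G.Walk u u), Odd w.length ∧ w.length = m) ∧
    (∀ (u : Fin n) (w : G.Walk u u), Odd w.length → b < w.length) ∧ ¬ G.Colorable b := by
  classical
  obtain ⟨N, hN⟩ := not_colorable (2 * b) (Fin b)
  have hc : ¬ (shiftGraph N (2 * b + 1)).Colorable b := fun h => hN.false h.some
  obtain ⟨e⟩ : Nonempty ((shiftGraph N (2 * b + 1)) ≃g
      (shiftGraph N (2 * b + 1)).overFin (rfl : Fintype.card (Tup N (2 * b + 1)) = _)) :=
    ⟨SimpleGraph.overFinIso _ rfl⟩
  have hc' : ¬ ((shiftGraph N (2 * b + 1)).overFin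
      (rfl : Fintype.card (Tup N (2 * b + 1)) = _)).Colorable b := by
    intro h
    exact hc ⟨h.some.comp e.toHom⟩
  have h2 : ¬ ((shiftGraph N (2 * b + 1)).overFin
      (rfl : Fintype.card (Tup N (2 * b + 1)) = _)).Colorable 2 := fun h => hc' (h.mono hb)
  rw [SimpleGraph.two_colorable_iff_forall_loop_even] at h2
  push Not at h2
  obtain ⟨u, w, hw⟩ := h2
  refine ⟨_, (shiftGraph N (2 * b + 1)).overFin rfl, w.length,
    ⟨u, w, Nat.not_even_iff_odd.mp hw, rfl⟩, fun u' w' hw' => ?_, hc'⟩
  by_contra hcon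
  rw [not_lt] at hcon
  have h3 := no_odd (w'.map e.symm.toHom) (by rw [SimpleGraph.Walk.length_map]; omega)
  rw [SimpleGraph.Walk.length_map] at h3
  exact (Nat.not_odd_iff_even.mpr h3) hw'

/-- **An infinite antichain of finite graphs.** -/
theorem exists_antichain : ∃ (n : ℕ → ℕ) (G : ∀ j, SimpleGraph (Fin (n j))),
    (∀ j, ∃ u v, (G j).Adj u v) ∧ ∀ i j, i ≠ j → IsEmpty (G i →g G j) := by
  classical
  choose n G m hw hshort hcol using exists_graph
  -- the bounds
  let B : ℕ → {b : ℕ // 2 ≤ b} := fun j => Nat.rec ⟨2, le_rfl⟩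
    (fun _ b => ⟨b.1 + n b.1 b.2 + m b.1 b.2, by have := b.2; omega⟩) j
  have hB : ∀ j, (B (j + 1)).1 = (B j).1 + n (B j).1 (B j).2 + m (B j).1 (B j).2 := fun j => rfl
  have hmono : Monotone fun j => (B j).1 := monotone_nat_of_le_succ fun j => by
    simp only [hB]
    omega
  refine ⟨fun j => n (B j).1 (B j).2, fun j => G (B j).1 (B j).2, fun j => ?_, ?_⟩
  · obtain ⟨u, w, hw1, -⟩ := hw (B j).1 (B j).2
    cases w with
    | nil => simp at hw1
    | cons h p => exact ⟨_, _, h⟩
  · have key : ∀ i j, i < j → IsEmpty (G (B i).1 (B i).2 →g G (B j).1 (B j).2) ∧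
        IsEmpty (G (B j).1 (B j).2 →g G (B i).1 (B i).2) := by
      intro i j hij
      have h1 : (B (i + 1)).1 ≤ (B j).1 := hmono (Nat.succ_le_of_lt hij)
      rw [hB] at h1
      refine ⟨⟨fun f => ?_⟩, ⟨fun f => ?_⟩⟩
      · obtain ⟨u, w, hw1, hw2⟩ := hw (B i).1 (B i).2
        have h2 := hshort (B j).1 (B j).2 _ (w.map f) (by rw [SimpleGraph.Walk.length_map]; exact hw1)
        rw [SimpleGraph.Walk.length_map] at h2
        omega
      · have h3 : (G (B i).1 (B i).2).Coloring (Fin (n (B i).1 (B i).2)) :=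
          (G (B i).1 (B i).2).selfColoring
        have h4 : (G (B j).1 (B j).2).Colorable (n (B i).1 (B i).2) := ⟨h3.comp f⟩
        exact hcol (B j).1 (B j).2 (h4.mono (by omega))
    intro i j hij
    rcases lt_or_gt_of_ne hij with h | h
    · exact (key i j h).1
    · exact (key j i h).2

end Pool.Agent.V6.ClA
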