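import Pool.Agent.V6.ClA.Forms2

/-!
# The cases according to the unary part
-/

set_option autoImplicit false

namespace Pool.Agent.V6.ClA

variable {C D : ∀ n, Set (TF n)}

theorem caseA (hC : IsClone C) (hD : IsClone D) (hDC : ∀ n, D n ⊆ C n)
    (hu : ∀ u, U1 C u → U1 D u) (hIC : Idem C) (h0 : ¬ T02 D) (h1 : ¬ T12 D) :
    Nonempty (IStr C ↪o IStr D) := by
  have hID : Idem D := ⟨fun n f hf => hIC.z n f (hDC n hf), fun n f hf => hIC.o n f (hDC n hf)⟩
  rcases idem_cases hD hID h0 h1 with ⟨ha, ho⟩ | hp | h3
  · exact emb_lattice hC hD hDC (hDC 1 ha) (hDC 1 ho)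
  · have hp' : T3 C pt := hDC 2 hp
    obtain ⟨hm, h3⟩ := pt_gen hC hp'
    by_cases hS : sd C
    · exact emb_sd hC hD hDC hS hm h3
    · obtain ⟨ha, ho⟩ := nonsd hC hIC h3 hS
      exact emb_lattice hC hD hDC ha ho
  · by_cases hL : lin C
    · exact emb_of_eq hDC (lin_sub' hC hD hL h3 hu)
    · by_cases hS : sd C
      · exact emb_sd hC hD hDC hS (nonlin_sd hC hIC (hDC 2 h3) hS hL) (hDC 2 h3)
      · obtain ⟨ha, ho⟩ := nonsd hC hIC (hDC 2 h3) hS
        exact emb_lattice hC hD hDC ha ho

/-- members `c && f` -/
theorem and_const_mem (hC : IsClone C) (h0 : U1 C (fun _ => false)) {k : ℕ} {f : TF k}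
    (hf : f ∈ C k) (c : Bool) : (fun x => c && f x) ∈ C k := by
  cases c
  · exact const_mem hC h0 k
  · simpa using hf

theorem xor_and (hC : IsClone C) (hx : B2 C xorB) (h0 : U1 C (fun _ => false))
    {H : Bool → Bool → Bool} (hH : B2 C H) (h00 : H false false = false)
    (h11 : H true true ≠ xor (H true false) (H false true)) : B2 C andB := by
  have := c2 hC hx (c2 hC hx hH (and_const_mem hC h0 (hC.proj 1 0) (H true false)))
    (and_const_mem hC h0 (hC.proj 1 1) (H false true))
  refine congrB (b := fun s t => xorB (xorB (H s t) (H true false && s)) (H false true && t))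
    this ?_
  intro s t
  revert h11
  cases s <;> cases t <;> simp only [andB, xorB, h00] <;> cases H true true <;>
    cases H true false <;> cases H false true <;> simp

theorem xor_nonlin (hC : IsClone C) (hx : B2 C xorB) (h0 : U1 C (fun _ => false))
    (hz : ∀ n, ∀ f ∈ C n, f (fun _ => false) = false) (hL : ¬ lin C) : B2 C andB := by
  unfold lin at hL
  push Not at hL
  obtain ⟨n, f, hf, x, y, z, hxyz⟩ := hL
  obtain ⟨G, hG⟩ : ∃ G : Bool → Bool → Bool → Bool, ∀ a b c, G a b c =
      f (fun i => xorB (xorB (x i && a) (y i && b)) (z i && c)) := ⟨_, fun _ _ _ => rfl⟩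
  have hGm : T3 C G := by
    have := hC.comp n 2 f (fun i w => xorB (xorB (x i && w 0) (y i && w 1)) (z i && w 2)) hf
      (fun i => c2 hC hx (c2 hC hx (and_const_mem hC h0 (hC.proj 2 0) (x i))
        (and_const_mem hC h0 (hC.proj 2 1) (y i))) (and_const_mem hC h0 (hC.proj 2 2) (z i)))
    refine congrT (b := fun a b c => f (fun i => xorB (xorB (x i && a) (y i && b)) (z i && c)))
      this hG
  have G1 : G true false false = f x := by
    rw [hG]; congr 1; funext i; simp [xorB]
  have G2 : G false true false = f y := by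
    rw [hG]; congr 1; funext i; simp [xorB]
  have G3 : G false false true = f z := by
    rw [hG]; congr 1; funext i; simp [xorB]
  have G4 : G true true true = f (fun i => mi3 (x i) (y i) (z i)) := by
    rw [hG]; congr 1; funext i; simp [xorB, mi3]
  have G0 : G false false false = false := hz 2 _ hGm
  rw [← G1, ← G2, ← G3, ← G4] at hxyz
  by_cases h : G true true false = xor (G true false false) (G false true false)
  · have hH : B2 C (fun s t => G s s t) :=
      c3 hC hGm (hC.proj 1 0) (hC.proj 1 0) (hC.proj 1 1)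
    refine xor_and hC hx h0 hH G0 ?_
    intro h2
    apply hxyz
    rw [h2, h]
    rfl
  · have hH : B2 C (fun s t => G s t false) :=
      c3 hC hGm (hC.proj 1 0) (hC.proj 1 1) (const_mem hC h0 1)
    exact xor_and hC hx h0 hH G0 h

theorem vee_and (hC : IsClone C) (ho : B2 C orB) (h0 : U1 C (fun _ => false))
    (hz : ∀ n, ∀ f ∈ C n, f (fun _ => false) = false) (hV : ¬ vee C) : B2 C andB := by
  unfold vee at hV
  push Not at hV
  obtain ⟨n, f, hf, x, y, hxy⟩ := hV
  obtain ⟨G, hG⟩ : ∃ G : Bool → Bool → Bool, ∀ a b, G a b =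
      f (fun i => orB (x i && a) (y i && b)) := ⟨_, fun _ _ => rfl⟩
  have hGm : B2 C G := by
    have := hC.comp n 1 f (fun i w => orB (x i && w 0) (y i && w 1)) hf
      (fun i => c2 hC ho (and_const_mem hC h0 (hC.proj 1 0) (x i))
        (and_const_mem hC h0 (hC.proj 1 1) (y i)))
    exact congrB (b := fun a b => f (fun i => orB (x i && a) (y i && b))) this hG
  have G1 : G true false = f x := by
    rw [hG]; congr 1; funext i; simp [orB]
  have G2 : G false true = f y := by
    rw [hG]; congr 1; funext i; simp [orB]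
  have G3 : G true true = f (fun i => x i || y i) := by
    rw [hG]; congr 1; funext i; simp [orB]
  have G0 : G false false = false := hz 1 _ hGm
  rw [← G1, ← G2, ← G3] at hxy
  cases g1 : G true false <;> cases g2 : G false true <;> cases g3 : G true true <;>
    rw [g1, g2, g3] at hxy <;> try (simp at hxy; done)
  · refine congrB hGm ?_
    intro s t
    cases s <;> cases t <;> simp [andB, G0, g1, g2, g3]
  · have := c2 hC hGm (c2 hC hGm (hC.proj 1 0) (hC.proj 1 1)) (hC.proj 1 1)
    refine congrB (b := fun s t => G (G s t) t) this ?_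
    intro s t
    cases s <;> cases t <;> simp [andB, G0, g1, g2, g3]
  · have := c2 hC hGm (hC.proj 1 0) (c2 hC hGm (hC.proj 1 0) (hC.proj 1 1))
    refine congrB (b := fun s t => G s (G s t)) this ?_
    intro s t
    cases s <;> cases t <;> simp [andB, G0, g1, g2, g3]
  · have := c2 hC hGm (c2 hC hGm (hC.proj 1 0) (hC.proj 1 1))
      (c2 hC ho (hC.proj 1 0) (hC.proj 1 1))
    refine congrB (b := fun s t => G (G s t) (orB s t)) this ?_
    intro s t
    cases s <;> cases t <;> simp [andB, orB, G0, g1, g2, g3]

theorem caseB (hC : IsClone C) (hD : IsClone D) (hDC : ∀ n, D n ⊆ C n)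
    (hu : ∀ u, U1 C u → U1 D u) (hd0 : U1 D (fun _ => false)) (hc1 : ¬ U1 C (fun _ => true))
    (hcN : ¬ U1 C (fun a => !a)) (h0 : ¬ T02 D) :
    Nonempty (IStr C ↪o IStr D) := by
  obtain ⟨p, hp, p010, p001⟩ := exists_p hD h0
  have hP : B2 D (fun s t => p false s t) :=
    c3 hD hp (const_mem hD hd0 1) (hD.proj 1 0) (hD.proj 1 1)
  have hz : ∀ n, ∀ f ∈ C n, f (fun _ => false) = false := fun n f hf => pres0 hC hc1 hcN hf
  have p000 : p false false false = false := hz 1 _ (hDC 1 hP)
  have hc0 : U1 C (fun _ => false) := hDC 0 hd0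
  cases p011 : p false true true
  · have hx : B2 D xorB := by
      refine congrB hP ?_
      intro s t
      cases s <;> cases t <;> simp [xorB, p000, p011, p010, p001]
    have h3 : T3 D mi3 := c2 hD hx (c2 hD hx (hD.proj 2 0) (hD.proj 2 1)) (hD.proj 2 2)
    by_cases hL : lin C
    · exact emb_of_eq hDC (lin_sub' hC hD hL h3 hu)
    · have hxC : B2 C xorB := hDC 1 hx
      have ha : B2 C andB := xor_nonlin hC hxC hc0 hz hL
      have ho : B2 C orB := by
        have := c2 hC hxC (c2 hC hxC ha (hC.proj 1 0)) (hC.proj 1 1)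
        refine congrB (b := fun s t => xorB (xorB (andB s t) s) t) this ?_
        decide
      exact emb_lattice hC hD hDC ha ho
  · have ho : B2 D orB := by
      refine congrB hP ?_
      intro s t
      cases s <;> cases t <;> simp [orB, p000, p011, p010, p001]
    by_cases hV : vee C
    · exact emb_of_eq hDC (vee_sub' hC hD hV ho hd0 hu)
    · exact emb_lattice hC hD hDC (vee_and hC (hDC 1 ho) hc0 hz hV) (hDC 1 ho)

theorem caseDvee (hC : IsClone C) (hD : IsClone D) (hDC : ∀ n, D n ⊆ C n)
    (hu : ∀ u, U1 C u → U1 D u) (hd0 : U1 D (fun _ => false)) (hV : vee C) :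
    Nonempty (IStr C ↪o IStr D) := by
  by_cases ho : B2 D orB
  · exact emb_of_eq hDC (vee_sub' hC hD hV ho hd0 hu)
  · by_cases hoC : B2 C orB
    · refine emb_eu hC hD hDC (vee_eu' hD (fun n f hf => hV n f (hDC n hf)) ho) hu orB hoC ?_
      decide
    · exact emb_of_eq hDC (EU_sub hC hD (vee_eu' hC hV hoC) hu)

theorem and_of_mono (hC : IsClone C) (h0 : U1 C (fun _ => false)) (h1 : U1 C (fun _ => true))
    (hm : ∀ n, ∀ f ∈ C n, ∀ u v : Fin (n + 1) → Bool, (∀ i, u i = true → v i = true) →
      f u = true → f v = true) (hV : ¬ vee C) : B2 C andB := by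
  unfold vee at hV
  push Not at hV
  obtain ⟨n, f, hf, x, y, hxy⟩ := hV
  have m1 := hm n f hf x (fun i => x i || y i) (by intro i hi; simp [hi])
  have m2 := hm n f hf y (fun i => x i || y i) (by intro i hi; simp [hi])
  obtain ⟨fx, fy, fxy⟩ : f x = false ∧ f y = false ∧ f (fun i => x i || y i) = true := by
    revert hxy m1 m2
    cases f x <;> cases f y <;> cases f (fun i => x i || y i) <;> simp
  obtain ⟨G, hG⟩ : ∃ G : Bool → Bool → Bool, ∀ a b, G a b =
      f (fun i => (x i && y i) || ((x i && a) || (y i && b))) := ⟨_, fun _ _ => rfl⟩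
  have hGm : B2 C G := by
    have := hC.comp n 1 f (fun i w => (x i && y i) || ((x i && w 0) || (y i && w 1))) hf
      (by
        intro i
        cases x i <;> cases y i
        · exact const_mem hC h0 1
        · simpa using hC.proj 1 1
        · simpa using hC.proj 1 0
        · simpa using const_mem hC h1 1)
    exact congrB (b := fun a b => f (fun i => (x i && y i) || ((x i && a) || (y i && b)))) this hG
  have G1 : G true false = false := by
    rw [hG]
    have : (fun i => (x i && y i) || ((x i && true) || (y i && false))) = x := by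
      funext i; cases x i <;> cases y i <;> rfl
    rw [this]; exact fx
  have G2 : G false true = false := by
    rw [hG]
    have : (fun i => (x i && y i) || ((x i && false) || (y i && true))) = y := by
      funext i; cases x i <;> cases y i <;> rfl
    rw [this]; exact fy
  have G3 : G true true = true := by
    rw [hG]
    have : (fun i => (x i && y i) || ((x i && true) || (y i && true))) = fun i => x i || y i := by
      funext i; cases x i <;> cases y i <;> rfl
    rw [this]; exact fxy
  have G0 : G false false = false := by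
    by_contra hc
    have hc' : G false false = true := by simpa using hc
    have : G true false = true := hm 1 _ hGm ![false, false] ![true, false] (by
      intro i; fin_cases i <;> simp) hc'
    rw [G1] at this
    simp at this
  refine congrB hGm ?_
  intro s t
  cases s <;> cases t <;> simp [andB, G0, G1, G2, G3]

theorem sd_of (hC : IsClone C) (hN : U1 C (fun a => !a)) (h0 : ¬ U1 C (fun _ => false))
    (h1 : ¬ U1 C (fun _ => true)) : sd C := by
  intro n f hf x
  by_contra hx
  have hb := B2_minor hC hf x
  have hU : U1 C (fun a => f (fun i => if x i = true then a else !a)) :=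
    c2 hC hb (hC.proj 0 0) (c1 hC hN (hC.proj 0 0))
  have e1 : (fun i => if x i = true then true else !true) = x := by
    funext i; cases x i <;> rfl
  have e2 : (fun i => if x i = true then false else !false) = fun i => !(x i) := by
    funext i; cases x i <;> rfl
  have key : (fun a => f (fun i => if x i = true then a else !a)) = fun _ => f x := by
    funext a
    cases a
    · rw [e2]
      revert hx
      cases f (fun i => !(x i)) <;> cases f x <;> simp
    · rw [e1]
  rw [key] at hU
  cases hfx : f x <;> rw [hfx] at hU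
  · exact h0 hU
  · exact h1 hU

theorem transf : ∀ g : Bool → Bool → Bool,
    xor (xor (g false false) (g true false)) (xor (g false true) (g true true)) = true →
    ∃ α β γ, ∀ a b, xor (g (xor a α) (xor b β)) γ = (a && b) := by decide

theorem xmem (hC : IsClone C) (hN : U1 C (fun a => !a)) {k : ℕ} {f : TF k} (hf : f ∈ C k)
    (c : Bool) : (fun x => xor (f x) c) ∈ C k := by
  cases c
  · simpa using hf
  · have := c1 hC hN hf
    convert this using 1
    funext x
    cases f x <;> rfl

theorem caseE (hC : IsClone C) (hD : IsClone D) (hDC : ∀ n, D n ⊆ C n)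
    (hu : ∀ u, U1 C u → U1 D u) (hN : U1 D (fun a => !a)) (h0 : ¬ U1 C (fun _ => false))
    (h1 : ¬ U1 C (fun _ => true)) : Nonempty (IStr C ↪o IStr D) := by
  have hNC : U1 C (fun a => !a) := hDC 0 hN
  have hS := sd_of hC hNC h0 h1
  by_cases hL : lin C
  · by_cases h3 : T3 D mi3
    · exact emb_of_eq hDC (lin_sub' hC hD hL h3 hu)
    · have hE := lin_eu' hD (fun n f hf => hL n f (hDC n hf)) h3
      by_cases h3C : T3 C mi3
      · exact emb_eu2 hC hD hDC hE hu h3C hL hS
      · exact emb_of_eq hDC (EU_sub hC hD (lin_eu' hC hL h3C) hu)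
  · obtain ⟨G, hG, hodd⟩ := nonlin_face' hC hNC hL
    obtain ⟨α, β, γ, h⟩ := transf (fun a b => G a b false) hodd
    have hm : T3 C maj := by
      have := xmem hC hNC (c3 hC hG (xmem hC hNC (hC.proj 2 0) α) (xmem hC hNC (hC.proj 2 1) β)
        (hC.proj 2 2)) γ
      refine congrT (b := fun a b c => xor (G (xor a α) (xor b β) c) γ) this ?_
      intro a b c
      cases c
      · rw [h a b]
        cases a <;> cases b <;> rfl
      · have e1 := h (!a) (!b)
        have e2 := hS 2 _ hG ![xor (!a) α, xor (!b) β, false]
        change G (!(xor (!a) α)) (!(xor (!b) β)) true = !(G (xor (!a) α) (xor (!b) β) false) at e2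
        have e3 : (!(xor (!a) α)) = xor a α := by cases a <;> cases α <;> rfl
        have e4 : (!(xor (!b) β)) = xor b β := by cases b <;> cases β <;> rfl
        rw [e3, e4] at e2
        rw [e2]
        revert e1
        generalize G (xor (!a) α) (xor (!b) β) false = g
        cases a <;> cases b <;> cases g <;> cases γ <;> simp [maj]
    have hp : T3 C pt := by
      have := c3 hC hm (hC.proj 2 1) (hC.proj 2 2) (c1 hC hNC (hC.proj 2 0))
      exact this
    exact emb_sd hC hD hDC hS hm (pt_gen hC hp).2

theorem caseF (hC : IsClone C) (hD : IsClone D) (hDC : ∀ n, D n ⊆ C n)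
    (hu : ∀ u, U1 C u → U1 D u) (hN : U1 D (fun a => !a)) (h0 : U1 D (fun _ => false)) :
    Nonempty (IStr C ↪o IStr D) := by
  have hNC : U1 C (fun a => !a) := hDC 0 hN
  have h0C : U1 C (fun _ => false) := hDC 0 h0
  by_cases hL : lin C
  · by_cases h3 : T3 D mi3
    · exact emb_of_eq hDC (lin_sub' hC hD hL h3 hu)
    · have hE := lin_eu' hD (fun n f hf => hL n f (hDC n hf)) h3
      by_cases h3C : T3 C mi3
      · have hx : B2 C xorB := by
          have := c3 hC h3C (hC.proj 1 0) (hC.proj 1 1) (const_mem hC h0C 1)
          refine congrB (b := fun s t => mi3 s t false) this ?_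
          decide
        refine emb_eu hC hD hDC hE hu xorB hx ?_
        decide
      · exact emb_of_eq hDC (EU_sub hC hD (lin_eu' hC hL h3C) hu)
  · obtain ⟨G, hG, hodd⟩ := nonlin_face' hC hNC hL
    obtain ⟨α, β, γ, h⟩ := transf (fun a b => G a b false) hodd
    have ha : B2 C andB := by
      have := xmem hC hNC (c3 hC hG (xmem hC hNC (hC.proj 1 0) α) (xmem hC hNC (hC.proj 1 1) β)
        (const_mem hC h0C 1)) γ
      refine congrB (b := fun a b => xor (G (xor a α) (xor b β) false) γ) this ?_
      intro a b
      rw [h a b]; rfl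
    have ho : B2 C orB := by
      have := c1 hC hNC (c2 hC ha (c1 hC hNC (hC.proj 1 0)) (c1 hC hNC (hC.proj 1 1)))
      refine congrB (b := fun s t => !(andB (!s) (!t))) this ?_
      decide
    exact emb_lattice hC hD hDC ha ho

end Pool.Agent.V6.ClA
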