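import Pool.Agent.V6.ClA.Lat

/-!
# Different unary parts; essentially unary clones
-/

set_option autoImplicit false

namespace Pool.Agent.V6.ClA

variable {C D : ∀ n, Set (TF n)}

/-- essentially unary -/
def EU (C : ∀ n, Set (TF n)) : Prop :=
  ∀ n, ∀ f ∈ C n, ∃ (i : Fin (n + 1)) (u : Bool → Bool), ∀ x, f x = u (x i)

def lin (C : ∀ n, Set (TF n)) : Prop :=
  ∀ n, ∀ f ∈ C n, ∀ x y z, f (fun i => mi3 (x i) (y i) (z i)) = mi3 (f x) (f y) (f z)

def sd (C : ∀ n, Set (TF n)) : Prop := ∀ n, ∀ f ∈ C n, ∀ x, f (fun i => !(x i)) = !(f x)

theorem emb_const (hC : IsClone C) (hD : IsClone D) (hDC : ∀ n, D n ⊆ C n) (c : Bool)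
    (hc : U1 C (fun _ => c)) (hd : ¬ U1 D (fun _ => c)) : Nonempty (IStr C ↪o IStr D) := by
  apply canon hC hD hDC
  intro X hX n f hf k h hh F hF hFC hg
  exfalso
  apply hd
  exact U1_diag hD (hg _ (const_mem hC hc n))

theorem mono_of (hD : IsClone D) (h0 : U1 D (fun _ => false)) (h1 : U1 D (fun _ => true))
    (hN : ¬ U1 D (fun a => !a)) : ∀ n, ∀ f ∈ D n, ∀ u v : Fin (n + 1) → Bool,
      (∀ i, u i = true → v i = true) → f u = true → f v = true := by
  intro n f hf u v huv hu
  by_contra hv
  have hv' : f v = false := by simpa using hv
  apply hN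
  have hmem : (fun x : Fin 1 → Bool => f (fun i => if u i = true then true else
      if v i = true then x 0 else false)) ∈ D 0 := by
    have := hD.comp n 0 f (fun i => if u i = true then (fun _ => true) else
      if v i = true then (fun x => x 0) else (fun _ => false)) hf (by
        intro i
        split_ifs
        exacts [const_mem hD h1 0, hD.proj 0 0, const_mem hD h0 0])
    convert this using 1
    funext x; congr 1; funext i
    split_ifs <;> rfl
  unfold U1
  convert hmem using 1
  funext x
  cases hx : x 0
  · have : (fun i => if u i = true then true else if v i = true then false else false) = u := by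
      funext i
      cases u i <;> simp
    rw [this, hu]; rfl
  · have : (fun i => if u i = true then true else if v i = true then true else false) = v := by
      funext i
      have := huv i
      revert this
      cases u i <;> cases v i <;> simp
    rw [this, hv']; rfl

theorem emb_not (hC : IsClone C) (hD : IsClone D) (hDC : ∀ n, D n ⊆ C n)
    (hc : U1 C (fun a => !a)) (hd : ¬ U1 D (fun a => !a)) : Nonempty (IStr C ↪o IStr D) := by
  apply canon hC hD hDC
  intro X hX n f hf k h hh F hF hFC hg
  have h1 : ∀ i, (fun x => !(h i x)) ∈ D k := fun i => hg _ (c1 hC hc (hC.proj n i))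
  have h2 : ∀ i, U1 D (fun _ => h i (fun _ => false)) ∧ U1 D (fun _ => !(h i (fun _ => false))) := by
    intro i
    have a1 := U1_diag hD (hh i)
    have a2 := U1_diag hD (h1 i)
    have a3 : h i (fun _ => true) = h i (fun _ => false) := by
      by_contra hne
      apply hd
      cases b0 : h i (fun _ => false)
      · have b1 : h i (fun _ => true) = true := by
          rw [b0] at hne; simpa using hne
        have : (fun a => !(h i (fun _ => a))) = fun a => !a := by
          funext a; cases a <;> simp [b0, b1]
        rw [this] at a2; exact a2
      · have b1 : h i (fun _ => true) = false := by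
          rw [b0] at hne; simpa using hne
        have : (fun a => (h i (fun _ => a))) = fun a => !a := by
          funext a; cases a <;> simp [b0, b1]
        rw [this] at a1; exact a1
    constructor
    · have : (fun a => (h i (fun _ => a))) = fun _ => h i (fun _ => false) := by
        funext a; cases a <;> simp [a3]
      rw [this] at a1; exact a1
    · have : (fun a => !(h i (fun _ => a))) = fun _ => !(h i (fun _ => false)) := by
        funext a; cases a <;> simp [a3]
      rw [this] at a2; exact a2
  have c0 : U1 D (fun _ => false) ∧ U1 D (fun _ => true) := by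
    have := h2 0
    cases b0 : h 0 (fun _ => false) <;> rw [b0] at this
    · exact ⟨this.1, this.2⟩
    · exact ⟨this.2, this.1⟩
  have mono := mono_of hD c0.1 c0.2 hd
  have hconst : ∀ i x, h i x = h i (fun _ => false) := by
    intro i x
    have m1 := mono k (h i) (hh i) (fun _ => false) x (by simp)
    have m2 := mono k _ (h1 i) (fun _ => false) x (by simp)
    revert m1 m2
    cases h i x <;> cases h i (fun _ => false) <;> simp
  have : F = fun _ => F (fun _ => false) := by
    funext x
    have e1 : (fun i => h i x) = fun i => h i (fun _ => false) := funext fun i => hconst i x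
    have e2 := hF x
    rw [e1, hF] at e2
    exact (Option.some_injective _ e2).symm
  rw [this]
  cases F (fun _ => false)
  · exact const_mem hD c0.1 k
  · exact const_mem hD c0.2 k

/-- functions depending on one variable only -/
theorem one_var (hC : IsClone C) (hD : IsClone D) (hu : ∀ u, U1 C u → U1 D u) {k : ℕ} {F : TF k}
    (hF : F ∈ C k) (s : Fin (k + 1)) (hs : ∀ x x' : Fin (k + 1) → Bool, x s = x' s → F x = F x') :
    F ∈ D k := by
  have h1 := hu _ (U1_diag hC hF)
  have h2 := c1 hD h1 (hD.proj k s)
  have : F = fun x => F (fun _ => x s) := by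
    funext x
    exact hs _ _ rfl
  rw [this]; exact h2

theorem EU_sub (hC : IsClone C) (hD : IsClone D) (hE : EU C) (hu : ∀ u, U1 C u → U1 D u) :
    ∀ n, C n ⊆ D n := by
  intro n f hf
  obtain ⟨i, u, h⟩ := hE n f hf
  exact one_var hC hD hu hf i (fun x x' hx => by rw [h, h, hx])

theorem emb_of_eq (hDC : ∀ n, D n ⊆ C n) (hCD : ∀ n, C n ⊆ D n) : Nonempty (IStr C ↪o IStr D) := by
  have : C = D := funext fun n => Set.Subset.antisymm (hCD n) (hDC n)
  subst this
  exact ⟨RelEmbedding.refl _⟩

/-- `C` has a binary operation `op` which really combines two variables, `D` is essentially unary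
with the same unary part -/
theorem emb_eu (hC : IsClone C) (hD : IsClone D) (hDC : ∀ n, D n ⊆ C n) (hE : EU D)
    (hu : ∀ u, U1 C u → U1 D u) (op : Bool → Bool → Bool) (hop : B2 C op)
    (hP : ∀ u v : Bool → Bool, u false ≠ u true → v false ≠ v true →
      (∃ b, op (u false) (v b) ≠ op (u true) (v b)) ∧ (∃ a, op (u a) (v false) ≠ op (u a) (v true))) :
    Nonempty (IStr C ↪o IStr D) := by
  apply canon hC hD hDC
  intro X hX n f hf k h hh F hF hFC hg
  choose s u hs using fun i => hE k (h i) (hh i)
  have heq : ∀ x y, (∀ i, h i x = h i y) → F x = F y := by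
    intro x y hxy
    have e1 : (fun i => h i x) = fun i => h i y := funext hxy
    have e2 := hF x
    rw [e1, hF] at e2
    exact (Option.some_injective _ e2).symm
  by_cases hall : ∀ i, u i false = u i true
  · refine one_var hC hD hu hFC 0 (fun x x' _ => heq _ _ (fun i => ?_))
    rw [hs, hs]
    cases x (s i) <;> cases x' (s i) <;> simp [hall i]
  · push Not at hall
    obtain ⟨i0, hi0⟩ := hall
    refine one_var hC hD hu hFC (s i0) (fun x x' hx => heq _ _ (fun i => ?_))
    rw [hs, hs]
    by_cases hi : u i false = u i true
    · cases x (s i) <;> cases x' (s i) <;> simp [hi]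
    · have hsi : s i = s i0 := by
        by_contra hne
        have hmem := hg _ (c2 hC hop (hC.proj n i0) (hC.proj n i))
        obtain ⟨r, w, hr⟩ := hE k _ hmem
        have hr' : ∀ x : Fin (k + 1) → Bool, op (u i0 (x (s i0))) (u i (x (s i))) = w (x r) := by
          intro x
          rw [← hr x]
          change _ = op (h i0 x) (h i x)
          rw [hs, hs]
        obtain ⟨⟨b, hb⟩, ⟨a, ha⟩⟩ := hP (u i0) (u i) hi0 hi
        have e1 : r = s i0 := by
          by_contra hrne
          apply hb
          have t1 := hr' (fun j => if j = s i0 then false else b)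
          have t2 := hr' (fun j => if j = s i0 then true else b)
          simp only [if_neg hne, if_neg hrne, if_true] at t1 t2
          rw [t1, t2]
        have e2 : r = s i := by
          by_contra hrne
          apply ha
          have t1 := hr' (fun j => if j = s i then false else a)
          have t2 := hr' (fun j => if j = s i then true else a)
          simp only [if_neg (Ne.symm hne), if_neg hrne, if_true] at t1 t2
          rw [t1, t2]
        exact hne (e2.symm.trans e1)
      rw [hsi, hx]

theorem emb_eu2 (hC : IsClone C) (hD : IsClone D) (hDC : ∀ n, D n ⊆ C n) (hE : EU D)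
    (hu : ∀ u, U1 C u → U1 D u) (h3 : T3 C mi3) (hL : lin C) (hS : sd C) :
    Nonempty (IStr C ↪o IStr D) := by
  apply canon hC hD hDC
  intro X hX n f hf k h hh F hF hFC hg
  choose s u hs using fun i => hE k (h i) (hh i)
  have heq : ∀ x y, (∀ i, h i x = h i y) → F x = F y := by
    intro x y hxy
    have e1 : (fun i => h i x) = fun i => h i y := funext hxy
    have e2 := hF x
    rw [e1, hF] at e2
    exact (Option.some_injective _ e2).symm
  have hun : ∀ i, u i false ≠ u i true := by
    intro i hi
    have := hS k (h i) (hDC _ (hh i)) (fun _ => true)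
    rw [hs, hs] at this
    simp [hi] at this
  obtain ⟨s', t', hst⟩ : ∃ s' t', ∀ i, s i = s' ∨ s i = t' := by
    by_contra hcon
    push Not at hcon
    obtain ⟨i1, h11, _⟩ := hcon (s 0) (s 0)
    obtain ⟨i2, h21, h22⟩ := hcon (s 0) (s i1)
    have hmem := hg _ (c3 hC h3 (hC.proj n 0) (hC.proj n i1) (hC.proj n i2))
    obtain ⟨r, w, hr⟩ := hE k _ hmem
    have hr' : ∀ x : Fin (k + 1) → Bool,
        mi3 (u 0 (x (s 0))) (u i1 (x (s i1))) (u i2 (x (s i2))) = w (x r) := by
      intro x
      rw [← hr x]
      change _ = mi3 (h 0 x) (h i1 x) (h i2 x)
      rw [hs, hs, hs]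
    have mi : ∀ a b c d : Bool, a ≠ b → mi3 a c d ≠ mi3 b c d ∧ mi3 c a d ≠ mi3 c b d ∧
      mi3 c d a ≠ mi3 c d b := by decide
    have e1 : r = s 0 := by
      by_contra hrne
      have t1 := hr' (fun j => if j = s 0 then false else false)
      have t2 := hr' (fun j => if j = s 0 then true else false)
      simp only [if_neg h11, if_neg h21, if_neg hrne, if_true] at t1 t2
      exact (mi _ _ _ _ (hun 0)).1 (t1.trans t2.symm)
    have e2 : r = s i1 := by
      by_contra hrne
      have t1 := hr' (fun j => if j = s i1 then false else false)
      have t2 := hr' (fun j => if j = s i1 then true else false)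
      simp only [if_neg (Ne.symm h11), if_neg h22, if_neg hrne, if_true] at t1 t2
      exact (mi _ _ _ _ (hun i1)).2.1 (t1.trans t2.symm)
    exact h11 (e2.symm.trans e1)
  have hF2 : ∀ x, F x = F (fun r => if r = s' then x s' else x t') := by
    intro x
    apply heq
    intro i
    rw [hs, hs]
    congr 1
    by_cases hi : s i = s'
    · rw [hi]; simp
    · rw [if_neg hi]
      rcases hst i with h1 | h1
      · exact absurd h1 hi
      · rw [h1]
  have hl := hL k F hFC (fun r => if r = s' then true else false)
    (fun r => if r = s' then false else true) (fun _ => false)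
  have hs1 := hS k F hFC (fun r => if r = s' then true else false)
  have hs2 := hS k F hFC (fun _ => false)
  have a1 : (fun i => mi3 (if i = s' then true else false) (if i = s' then false else true) false) =
      fun _ : Fin (k + 1) => true := by
    funext i; split_ifs <;> rfl
  have a2 : (fun i => !(if i = s' then true else false)) =
      fun i : Fin (k + 1) => if i = s' then false else true := by
    funext i; split_ifs <;> rfl
  rw [a1] at hl
  rw [a2] at hs1
  simp only [Bool.not_false] at hs2
  -- values on the four points
  have v00 : (fun r : Fin (k + 1) => if r = s' then false else false) = fun _ => false := by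
    funext r; split_ifs <;> rfl
  have v11 : (fun r : Fin (k + 1) => if r = s' then true else true) = fun _ => true := by
    funext r; split_ifs <;> rfl
  by_cases hd : F (fun r => if r = s' then true else false) = F (fun _ => false)
  · refine one_var hC hD hu hFC t' (fun x x' hx => ?_)
    rw [hF2 x, hF2 x', hx]
    cases x s' <;> cases x' s' <;> cases x' t' <;>
      simp only [v00, v11, hs1, hs2, hd, Bool.not_not]
  · have hd' : F (fun r => if r = s' then true else false) = !(F (fun _ => false)) := by
      revert hd
      generalize F (fun r => if r = s' then true else false) = A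
      generalize F (fun _ => false) = B
      revert A B; decide
    refine one_var hC hD hu hFC s' (fun x x' hx => ?_)
    rw [hF2 x, hF2 x', hx]
    cases x t' <;> cases x' t' <;> cases x' s' <;>
      simp only [v00, v11, hs1, hs2, hd', Bool.not_not]

end Pool.Agent.V6.ClA
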