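import Pool.Agent.V6.ClA.Lat

/-!
# The canonical map for self-dual clones with majority and minority
-/

set_option autoImplicit false

namespace Pool.Agent.V6.ClA

variable {C D : ∀ n, Set (TF n)}

theorem sd_no_const (hS : ∀ n, ∀ f ∈ C n, ∀ x, f (fun i => !(x i)) = !(f x)) (c : Bool) :
    ¬ U1 C (fun _ => c) := by
  intro h
  have := hS 0 _ h (fun _ => true)
  cases c <;> simp at this

theorem emb_sd (hC : IsClone C) (hD : IsClone D) (hDC : ∀ n, D n ⊆ C n)
    (hS : ∀ n, ∀ f ∈ C n, ∀ x, f (fun i => !(x i)) = !(f x)) (hm : T3 C maj) (h3 : T3 C mi3) :
    Nonempty (IStr C ↪o IStr D) := by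
  apply canon_of_two hC hD hDC hm
  intro X hX n f hf k h hh F hF hFC x y
  by_cases e : ∃ i, h i x = F x ∧ h i y = F y
  · obtain ⟨i, h1, h2⟩ := e
    exact ⟨_, hC.proj n i, h1, h2⟩
  have heq : ∀ u v, (∀ i, h i u = h i v) → F u = F v := by
    intro u v huv
    have e1 : (fun i => h i u) = fun i => h i v := funext huv
    have e2 := hF u
    rw [e1, hF] at e2
    exact (Option.some_injective _ e2).symm
  by_cases hN : U1 C (fun a => !a)
  · by_cases e' : ∃ i, h i x = !(F x) ∧ h i y = !(F y)
    · obtain ⟨i, h1, h2⟩ := e'
      exact ⟨_, c1 hC hN (hC.proj n i), by simp [h1], by simp [h2]⟩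
    exfalso
    have key : ∀ i, h i y = xor (h i x) (xor (F x) (!(F y))) := by
      intro i
      have e1 : ¬ (h i x = F x ∧ h i y = F y) := fun hc => e ⟨i, hc⟩
      have e2 : ¬ (h i x = !(F x) ∧ h i y = !(F y)) := fun hc => e' ⟨i, hc⟩
      revert e1 e2
      cases h i x <;> cases h i y <;> cases F x <;> cases F y <;> simp
    by_cases hxy : F x = F y
    · have key' : ∀ i, h i y = !(h i x) := by
        intro i
        rw [key i, hxy]
        cases h i x <;> cases F y <;> rfl
      let h' : Fin (n + 1) → TF 0 := fun i => if h i x = true then fun z => z 0 else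
        fun z => !(z 0)
      have hh' : ∀ i, h' i ∈ C 0 := by
        intro i
        simp only [h']
        split_ifs
        · exact hC.proj 0 0
        · exact hN
      have hG : (fun z : Fin 1 → Bool => if z 0 = true then F x else F y) ∈ C 0 := by
        refine mem_of_total hX hf h' hh' _ ?_
        intro z
        cases hz : z 0
        · have : (fun i => h' i z) = fun i => h i y := by
            funext i
            simp only [h', key' i]
            cases h i x <;> simp [hz]
          rw [this, hF]; simp
        · have : (fun i => h' i z) = fun i => h i x := by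
            funext i
            simp only [h']
            cases h i x <;> simp [hz]
          rw [this, hF]; simp
      have := hS 0 _ hG (fun _ => true)
      simp [hxy] at this
    · apply hxy
      apply heq
      intro i
      rw [key i]
      revert hxy
      cases h i x <;> cases F x <;> cases F y <;> simp
  · have h0 := sd_no_const hS false
    have h1 := sd_no_const hS true
    have hconst : ∀ (b : Bool) u, (∀ i, h i u = b) → F u = b := by
      intro b u hu
      have hc : ∀ n (g : TF n), g ∈ C n → g (fun _ => b) = b := by
        intro n g hg
        cases b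
        · exact pres0 hC h1 hN hg
        · exact pres1 hC h0 hN hg
      rw [← hc _ F hFC]
      apply heq
      intro i
      rw [hu i, hc _ _ (hh i)]
    by_cases e1 : ∃ i, h i x = F x ∧ h i y = !(F y)
    swap
    · exfalso
      have := hconst (!(F x)) x (by
        intro i
        have a1 : ¬ (h i x = F x ∧ h i y = F y) := fun hc => e ⟨i, hc⟩
        have a2 : ¬ (h i x = F x ∧ h i y = !(F y)) := fun hc => e1 ⟨i, hc⟩
        revert a1 a2
        cases h i x <;> cases h i y <;> cases F x <;> cases F y <;> simp)
      revert this
      cases F x <;> simp
    by_cases e2 : ∃ i, h i x = !(F x) ∧ h i y = F y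
    swap
    · exfalso
      have := hconst (!(F y)) y (by
        intro i
        have a1 : ¬ (h i x = F x ∧ h i y = F y) := fun hc => e ⟨i, hc⟩
        have a2 : ¬ (h i x = !(F x) ∧ h i y = F y) := fun hc => e2 ⟨i, hc⟩
        revert a1 a2
        cases h i x <;> cases h i y <;> cases F x <;> cases F y <;> simp)
      revert this
      cases F y <;> simp
    by_cases e3 : ∃ i, h i x = !(F x) ∧ h i y = !(F y)
    · obtain ⟨i1, p1, q1⟩ := e1
      obtain ⟨i2, p2, q2⟩ := e2
      obtain ⟨i3, p3, q3⟩ := e3
      refine ⟨_, c3 hC h3 (hC.proj n i1) (hC.proj n i2) (hC.proj n i3), ?_, ?_⟩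
      · simp only [p1, p2, p3, mi3]
        cases F x <;> rfl
      · simp only [q1, q2, q3, mi3]
        cases F y <;> rfl
    · exfalso
      have key : ∀ i, h i y = xor (h i x) (xor (F x) (!(F y))) := by
        intro i
        have a1 : ¬ (h i x = F x ∧ h i y = F y) := fun hc => e ⟨i, hc⟩
        have a2 : ¬ (h i x = !(F x) ∧ h i y = !(F y)) := fun hc => e3 ⟨i, hc⟩
        revert a1 a2
        cases h i x <;> cases h i y <;> cases F x <;> cases F y <;> simp
      by_cases hxy : F x = F y
      · have key' : ∀ i, h i y = !(h i x) := by
          intro i
          rw [key i, hxy]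
          cases h i x <;> cases F y <;> rfl
        let h' : Fin (n + 1) → TF 1 := fun i => if h i x = true then fun z => z 0 else
          fun z => z 1
        have hh' : ∀ i, h' i ∈ C 1 := by
          intro i
          simp only [h']
          split_ifs
          · exact hC.proj 1 0
          · exact hC.proj 1 1
        have tex : ∀ z : Fin 2 → Bool, ∃ t : Fin (k + 1) → Bool,
            ((z 0 = true ∧ z 1 = false) → t = x) ∧ ((z 0 = false ∧ z 1 = true) → t = y) ∧
            (fun i => h' i z) = fun i => h i t := by
          intro z
          cases z0 : z 0 <;> cases z1 : z 1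
          · refine ⟨fun _ => false, by simp, by simp, ?_⟩
            funext i
            rw [pres0 hC h1 hN (hh i)]
            simp only [h']
            split_ifs
            exacts [z0, z1]
          · refine ⟨y, by simp, by simp, ?_⟩
            funext i
            simp only [h', key' i]
            cases h i x <;> simp [z0, z1]
          · refine ⟨x, by simp, by simp, ?_⟩
            funext i
            simp only [h']
            cases h i x <;> simp [z0, z1]
          · refine ⟨fun _ => true, by simp, by simp, ?_⟩
            funext i
            rw [pres1 hC h0 hN (hh i)]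
            simp only [h']
            split_ifs
            exacts [z0, z1]
        choose t tx ty ht using tex
        have hG : (fun z => F (t z)) ∈ C 1 := by
          refine mem_of_total hX hf h' hh' _ ?_
          intro z
          rw [ht z, hF]
        have := hS 1 _ hG ![true, false]
        rw [tx ![true, false] ⟨rfl, rfl⟩, ty (fun i => !(![true, false] i)) ⟨rfl, rfl⟩, hxy] at this
        revert this
        cases F y <;> simp
      · apply hxy
        apply heq
        intro i
        rw [key i]
        revert hxy
        cases h i x <;> cases F x <;> cases F y <;> simp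

end Pool.Agent.V6.ClA
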