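import Pool.Agent.V6.ClA.EmbLat
import Pool.Agent.V6.ClA.EmbSd
import Pool.Agent.V6.ClA.Barg

/-!
# Generation of `∧`, `∨`, majority
-/

set_option autoImplicit false

namespace Pool.Agent.V6.ClA

variable {C D : ∀ n, Set (TF n)}

def T02 (C : ∀ n, Set (TF n)) : Prop :=
  ∀ n, ∀ f ∈ C n, ∀ x y, f x = true → f y = true → ∃ i, x i = true ∧ y i = true

def T12 (C : ∀ n, Set (TF n)) : Prop :=
  ∀ n, ∀ f ∈ C n, ∀ x y, f x = false → f y = false → ∃ i, x i = false ∧ y i = false

def vee (C : ∀ n, Set (TF n)) : Prop :=
  ∀ n, ∀ f ∈ C n, ∀ x y, f (fun i => x i || y i) = (f x || f y)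

def andB (a b : Bool) : Bool := a && b
def orB (a b : Bool) : Bool := a || b
def xorB (a b : Bool) : Bool := xor a b
/-- majority with the first argument negated -/
def pt (z s t : Bool) : Bool := maj s t (!z)

theorem c2' (hC : IsClone C) {b : Bool → Bool → Bool} (h : B2 C b) {k : ℕ} {f g F : TF k}
    (hf : f ∈ C k) (hg : g ∈ C k) (hF : ∀ x, F x = b (f x) (g x)) : F ∈ C k := by
  have := c2 hC h hf hg
  rwa [show F = fun x => b (f x) (g x) from funext hF]

theorem c3' (hC : IsClone C) {b : Bool → Bool → Bool → Bool} (h : T3 C b) {k : ℕ}
    {f g l F : TF k} (hf : f ∈ C k) (hg : g ∈ C k) (hl : l ∈ C k)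
    (hF : ∀ x, F x = b (f x) (g x) (l x)) : F ∈ C k := by
  have := c3 hC h hf hg hl
  rwa [show F = fun x => b (f x) (g x) (l x) from funext hF]

theorem congrB {b b' : Bool → Bool → Bool} (h : B2 C b) (hb : ∀ s t, b' s t = b s t) : B2 C b' := by
  have : b' = b := by funext s t; exact hb s t
  rwa [this]

theorem congrT {b b' : Bool → Bool → Bool → Bool} (h : T3 C b)
    (hb : ∀ s t u, b' s t u = b s t u) : T3 C b' := by
  have : b' = b := by funext s t u; exact hb s t u
  rwa [this]

theorem exists_p (hC : IsClone C) (h : ¬ T02 C) : ∃ p, T3 C p ∧ p false true false = true ∧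
    p false false true = true := by
  unfold T02 at h
  push Not at h
  obtain ⟨n, f, hf, x, y, hx, hy, hxy⟩ := h
  refine ⟨_, T3_minor hC hf x y, ?_, ?_⟩
  · have : (fun i => if x i = true then true else if y i = true then false else false) = x := by
      funext i; cases x i <;> simp
    rw [this]; exact hx
  · have : (fun i => if x i = true then false else if y i = true then true else false) = y := by
      funext i
      have := hxy i
      revert this
      cases x i <;> cases y i <;> simp
    rw [this]; exact hy

theorem exists_q (hC : IsClone C) (h : ¬ T12 C) : ∃ p, T3 C p ∧ p true false true = false ∧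
    p true true false = false := by
  unfold T12 at h
  push Not at h
  obtain ⟨n, f, hf, x, y, hx, hy, hxy⟩ := h
  refine ⟨_, T3_minor hC hf (fun i => !(x i)) (fun i => !(y i)), ?_, ?_⟩
  · have : (fun i => if (!(x i)) = true then false else if (!(y i)) = true then true else true)
        = x := by
      funext i; cases x i <;> simp
    rw [this]; exact hx
  · have : (fun i => if (!(x i)) = true then true else if (!(y i)) = true then false else true)
        = y := by
      funext i
      have := hxy i
      revert this
      cases x i <;> cases y i <;> simp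
    rw [this]; exact hy

/-- three unary functions excluded: idempotent -/
structure Idem (C : ∀ n, Set (TF n)) : Prop where
  z : ∀ n, ∀ f ∈ C n, f (fun _ => false) = false
  o : ∀ n, ∀ f ∈ C n, f (fun _ => true) = true

theorem Idem.b0 (h : Idem C) {b : Bool → Bool → Bool} (hb : B2 C b) : b false false = false :=
  h.z 1 _ hb
theorem Idem.b1 (h : Idem C) {b : Bool → Bool → Bool} (hb : B2 C b) : b true true = true :=
  h.o 1 _ hb
theorem Idem.t0 (h : Idem C) {b : Bool → Bool → Bool → Bool} (hb : T3 C b) :
    b false false false = false := h.z 2 _ hb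
theorem Idem.t1 (h : Idem C) {b : Bool → Bool → Bool → Bool} (hb : T3 C b) :
    b true true true = true := h.o 2 _ hb

theorem B2_of_T3 (hC : IsClone C) {p : Bool → Bool → Bool → Bool} (hp : T3 C p) :
    B2 C (fun s t => p s s t) ∧ B2 C (fun s t => p t s t) ∧ B2 C (fun s t => p s t t) :=
  ⟨c3 hC hp (hC.proj 1 0) (hC.proj 1 0) (hC.proj 1 1),
   c3 hC hp (hC.proj 1 1) (hC.proj 1 0) (hC.proj 1 1),
   c3 hC hp (hC.proj 1 0) (hC.proj 1 1) (hC.proj 1 1)⟩

theorem idem_cases (hD : IsClone D) (hI : Idem D) (h0 : ¬ T02 D) (h1 : ¬ T12 D) :
    (B2 D andB ∧ B2 D orB) ∨ T3 D pt ∨ T3 D mi3 := by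
  obtain ⟨p, hp, p010, p001⟩ := exists_p hD h0
  obtain ⟨q, hq, q101, q110⟩ := exists_q hD h1
  have p000 := hI.t0 hp
  have p111 := hI.t1 hp
  have q000 := hI.t0 hq
  have q111 := hI.t1 hq
  have oa : B2 D orB → B2 D andB := by
    intro ho
    have : B2 D (fun s t => q (orB s t) s t) :=
      c3 hD hq (c2 hD ho (hD.proj 1 0) (hD.proj 1 1)) (hD.proj 1 0) (hD.proj 1 1)
    refine congrB this ?_
    intro s t
    cases s <;> cases t <;> simp [andB, orB, q000, q111, q101, q110]
  have ao : B2 D andB → B2 D orB := by
    intro ho
    have : B2 D (fun s t => p (andB s t) s t) :=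
      c3 hD hp (c2 hD ho (hD.proj 1 0) (hD.proj 1 1)) (hD.proj 1 0) (hD.proj 1 1)
    refine congrB this ?_
    intro s t
    cases s <;> cases t <;> simp [andB, orB, p000, p111, p001, p010]
  obtain ⟨b1, b2, b3⟩ := B2_of_T3 hD hp
  cases p110 : p true true false
  swap
  · left
    have : B2 D orB := by
      refine congrB b1 ?_
      intro s t
      cases s <;> cases t <;> simp [orB, p000, p111, p001, p110]
    exact ⟨oa this, this⟩
  cases p101 : p true false true
  swap
  · left
    have : B2 D orB := by
      refine congrB b2 ?_
      intro s t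
      cases s <;> cases t <;> simp [orB, p000, p111, p010, p101]
    exact ⟨oa this, this⟩
  cases p100 : p true false false <;> cases p011 : p false true true
  · left
    have : B2 D andB := by
      refine congrB b3 ?_
      intro s t
      cases s <;> cases t <;> simp [andB, p000, p111, p100, p011]
    exact ⟨this, ao this⟩
  · right; left
    refine congrT hp ?_
    intro s t u
    cases s <;> cases t <;> cases u <;>
      simp [pt, maj, p000, p111, p100, p011, p010, p001, p110, p101]
  · right; right
    refine congrT hp ?_
    intro s t u
    cases s <;> cases t <;> cases u <;>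
      simp [mi3, p000, p111, p100, p011, p010, p001, p110, p101]
  · left
    have : B2 D orB := by
      refine congrB b3 ?_
      intro s t
      cases s <;> cases t <;> simp [orB, p000, p111, p100, p011]
    exact ⟨oa this, this⟩

theorem pt_gen (hC : IsClone C) (h : T3 C pt) : T3 C maj ∧ T3 C mi3 := by
  have hm : T3 C maj := by
    have := c3 hC h (c3 hC h (hC.proj 2 2) (hC.proj 2 0) (hC.proj 2 1)) (hC.proj 2 0) (hC.proj 2 1)
    refine congrT (b := fun x y z => pt (pt z x y) x y) this ?_
    decide
  refine ⟨hm, ?_⟩
  have := c3 hC h (c3 hC hm (hC.proj 2 0) (hC.proj 2 1) (hC.proj 2 2)) (hC.proj 2 2)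
    (c3 hC h (hC.proj 2 2) (hC.proj 2 0) (hC.proj 2 1))
  refine congrT (b := fun x y z => pt (maj x y z) z (pt z x y)) this ?_
  decide

/-- a non-self-dual function and minority give the lattice operations -/
theorem nonsd (hC : IsClone C) (hI : Idem C) (h3 : T3 C mi3) (hS : ¬ sd C) :
    B2 C andB ∧ B2 C orB := by
  unfold sd at hS
  push Not at hS
  obtain ⟨n, f, hf, x, hx⟩ := hS
  have hb := B2_minor hC hf x
  have b00 := hI.b0 hb
  have b11 := hI.b1 hb
  have e1 : (fun i => if x i = true then true else false) = x := by
    funext i; cases x i <;> rfl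
  have e2 : (fun i => if x i = true then false else true) = fun i => !(x i) := by
    funext i; cases x i <;> rfl
  cases hfx : f x
  · have hfx' : f (fun i => !(x i)) = false := by
      rw [hfx] at hx; simpa using hx
    have ha : B2 C andB := by
      refine congrB hb ?_
      intro s t
      cases s <;> cases t
      · exact b00.symm
      · change false = f (fun i => if x i = true then false else true)
        rw [e2, hfx']
      · change false = f (fun i => if x i = true then true else false)
        rw [e1, hfx]
      · exact b11.symm
    refine ⟨ha, ?_⟩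
    have := c3 hC h3 (hC.proj 1 0) (hC.proj 1 1) (c2 hC ha (hC.proj 1 0) (hC.proj 1 1))
    refine congrB (b := fun s t => mi3 s t (andB s t)) this ?_
    decide
  · have hfx' : f (fun i => !(x i)) = true := by
      rw [hfx] at hx; simpa using hx
    have ha : B2 C orB := by
      refine congrB hb ?_
      intro s t
      cases s <;> cases t
      · exact b00.symm
      · change true = f (fun i => if x i = true then false else true)
        rw [e2, hfx']
      · change true = f (fun i => if x i = true then true else false)
        rw [e1, hfx]
      · exact b11.symm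
    refine ⟨?_, ha⟩
    have := c3 hC h3 (hC.proj 1 0) (hC.proj 1 1) (c2 hC ha (hC.proj 1 0) (hC.proj 1 1))
    refine congrB (b := fun s t => mi3 s t (orB s t)) this ?_
    decide

/-- idempotent, self-dual, minority, not linear: majority -/
theorem nonlin_sd (hC : IsClone C) (hI : Idem C) (h3 : T3 C mi3) (hS : sd C) (hL : ¬ lin C) :
    T3 C maj := by
  unfold lin at hL
  push Not at hL
  obtain ⟨n, f, hf, x, y, z, hxyz⟩ := hL
  -- the 4-ary function
  have hF : (fun w : Fin 4 → Bool => f (fun i => xor (xor (x i && w 0) (y i && w 1))
      (xor (z i && w 2) (!(mi3 (x i) (y i) (z i)) && w 3)))) ∈ C 3 := by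
    refine hC.comp n 3 f (fun i w => xor (xor (x i && w 0) (y i && w 1))
      (xor (z i && w 2) (!(mi3 (x i) (y i) (z i)) && w 3))) hf ?_
    intro i
    have hp := fun j : Fin 4 => hC.proj 3 j
    cases x i <;> cases y i <;> cases z i
    · convert hp 3 using 1; funext w; simp [mi3]
    · convert hp 2 using 1; funext w; simp [mi3]
    · convert hp 1 using 1; funext w; simp [mi3]
    · refine c3' hC h3 (hp 1) (hp 2) (hp 3) ?_
      intro w; cases w 0 <;> cases w 1 <;> cases w 2 <;> cases w 3 <;> rfl
    · convert hp 0 using 1; funext w; simp [mi3]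
    · refine c3' hC h3 (hp 0) (hp 2) (hp 3) ?_
      intro w; cases w 0 <;> cases w 1 <;> cases w 2 <;> cases w 3 <;> rfl
    · refine c3' hC h3 (hp 0) (hp 1) (hp 3) ?_
      intro w; cases w 0 <;> cases w 1 <;> cases w 2 <;> cases w 3 <;> rfl
    · refine c3' hC h3 (hp 0) (hp 1) (hp 2) ?_
      intro w; cases w 0 <;> cases w 1 <;> cases w 2 <;> cases w 3 <;> rfl
  obtain ⟨F, hFe⟩ : ∃ F : Bool → Bool → Bool → Bool → Bool, ∀ a b c d, F a b c d =
      f (fun i => xor (xor (x i && a) (y i && b))
      (xor (z i && c) (!(mi3 (x i) (y i) (z i)) && d))) := ⟨_, fun _ _ _ _ => rfl⟩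
  have hFm : (fun w : Fin 4 → Bool => F (w 0) (w 1) (w 2) (w 3)) ∈ C 3 := by
    convert hF using 1
    funext w
    exact hFe _ _ _ _
  have F1 : F true false false false = f x := by
    rw [hFe]; congr 1; funext i; simp
  have F2 : F false true false false = f y := by
    rw [hFe]; congr 1; funext i; simp
  have F3 : F false false true false = f z := by
    rw [hFe]; congr 1; funext i; simp
  have F4 : F true true true false = f (fun i => mi3 (x i) (y i) (z i)) := by
    rw [hFe]; congr 1; funext i; simp [mi3]
  have hsdF : ∀ a b c d, F (!a) (!b) (!c) (!d) = !(F a b c d) := by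
    intro a b c d
    exact hS 3 _ hFm ![a, b, c, d]
  -- two ternary minors
  have tern : ∀ G : Bool → Bool → Bool → Bool, T3 C G →
      xor (xor (G false true true) (G true false true)) (G true true false) = true →
      T3 C maj := by
    intro G hG hodd
    have g0 := hI.t0 hG
    have g1 := hI.t1 hG
    have s1 := hS 2 _ hG ![false, true, true]
    have s2 := hS 2 _ hG ![true, false, true]
    have s3 := hS 2 _ hG ![true, true, false]
    change G true false false = !(G false true true) at s1
    change G false true false = !(G true false true) at s2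
    change G false false true = !(G true true false) at s3
    cases e1 : G false true true <;> cases e2 : G true false true <;>
      cases e3 : G true true false <;> rw [e1, e2, e3] at hodd <;> try (simp at hodd; done)
    all_goals rw [e1] at s1; rw [e2] at s2; rw [e3] at s3
    · -- only 110: G = maj(a, b, !c)
      have hpt : T3 C pt := by
        refine congrT (b := fun z s t => G s t z)
          (c3 hC hG (hC.proj 2 1) (hC.proj 2 2) (hC.proj 2 0)) ?_
        intro s t u
        cases s <;> cases t <;> cases u <;> simp_all [pt, maj]
      exact (pt_gen hC hpt).1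
    · have hpt : T3 C pt := by
        refine congrT (b := fun z s t => G s z t)
          (c3 hC hG (hC.proj 2 1) (hC.proj 2 0) (hC.proj 2 2)) ?_
        intro s t u
        cases s <;> cases t <;> cases u <;> simp_all [pt, maj]
      exact (pt_gen hC hpt).1
    · have hpt : T3 C pt := by
        refine congrT hG ?_
        intro s t u
        cases s <;> cases t <;> cases u <;> simp_all [pt, maj]
      exact (pt_gen hC hpt).1
    · refine congrT hG ?_
      intro s t u
      cases s <;> cases t <;> cases u <;> simp_all [maj]
  by_contra hno
  have m1 : T3 C (fun a b c => F a a b c) :=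
    minor (m := 2) hC hFm ![0, 0, 1, 2]
  have m2 : T3 C (fun a b c => F a b c c) :=
    minor (m := 2) hC hFm ![0, 1, 2, 2]
  have k1 : xor (xor (F false false true true) (F true true false true))
      (F true true true false) = false := by
    by_contra hc
    exact hno (tern _ m1 (by simpa using hc))
  have k2 : xor (xor (F false true true true) (F true false true true))
      (F true true false false) = false := by
    by_contra hc
    exact hno (tern _ m2 (by simpa using hc))
  apply hxyz
  rw [← F1, ← F2, ← F3, ← F4]
  have s1 := hsdF true false false false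
  have s2 := hsdF false true false false
  have s3 := hsdF false false true false
  have s4 := hsdF false false true true
  simp only [Bool.not_true, Bool.not_false] at s1 s2 s3 s4
  revert k1 k2
  rw [s1, s2, s3, s4]
  unfold mi3
  cases F false false true true <;> cases F true true true false <;>
    cases F true false false false <;> cases F false true false false <;>
    cases F false false true false <;> simp

end Pool.Agent.V6.ClA
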