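import Mathlib

/-!
# Boolean partial clones: definitions, the largest element of `I_Str(D)`, the canonical map
-/

set_option autoImplicit false

namespace Pool.Agent.V6.ClA

/-- Partial Boolean functions of arity `n + 1` (`none` = undefined). -/
abbrev PF (n : ℕ) : Type := (Fin (n + 1) → Bool) → Option Bool

/-- Total Boolean functions of arity `n + 1`. -/
abbrev TF (n : ℕ) : Type := (Fin (n + 1) → Bool) → Bool

/-- The composition `f(g_0, …, g_n)`, defined at `x` iff all `g_i(x)` are defined and their tuple is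
in the domain of `f`. -/
def comp {n m : ℕ} (f : PF n) (g : Fin (n + 1) → PF m) : PF m := fun x =>
  if h : ∀ i, (g i x).isSome then f (fun i => (g i x).get (h i)) else none

/-- A total function as a partial function. -/
def tot {n : ℕ} (f : TF n) : PF n := fun x => some (f x)

/-- A partial clone: contains the total projections and is closed under composition. -/
structure IsPartialClone (P : ∀ n, Set (PF n)) : Prop where
  proj : ∀ n (i : Fin (n + 1)), tot (fun x => x i) ∈ P n
  comp : ∀ n m (f : PF n) (g : Fin (n + 1) → PF m), f ∈ P n → (∀ i, g i ∈ P m) →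
    comp f g ∈ P m

/-- A family of partial functions is strong if it is closed under restricting domains. -/
def IsStrong (P : ∀ n, Set (PF n)) : Prop :=
  ∀ n (f g : PF n), f ∈ P n → (∀ x b, g x = some b → f x = some b) → g ∈ P n

/-- A Boolean clone (of total functions). -/
structure IsClone (C : ∀ n, Set (TF n)) : Prop where
  proj : ∀ n (i : Fin (n + 1)), (fun x => x i) ∈ C n
  comp : ∀ n m (f : TF n) (g : Fin (n + 1) → TF m), f ∈ C n → (∀ i, g i ∈ C m) →
    (fun x => f (fun i => g i x)) ∈ C m

/-- The interval `I_Str(C)`: all strong partial clones with total part exactly `C`. -/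
def IStr (C : ∀ n, Set (TF n)) : Set (∀ n, Set (PF n)) :=
  {P | IsPartialClone P ∧ IsStrong P ∧ ∀ n (f : TF n), tot f ∈ P n ↔ f ∈ C n}

theorem comp_eq_some {n m : ℕ} (f : PF n) (g : Fin (n + 1) → PF m) (x : Fin (m + 1) → Bool)
    (b : Bool) : comp f g x = some b ↔ ∃ y, (∀ i, g i x = some (y i)) ∧ f y = some b := by
  unfold comp
  constructor
  · intro h
    split_ifs at h with h1
    exact ⟨fun i => (g i x).get (h1 i), fun i => (Option.some_get (h1 i)).symm, h⟩
  · rintro ⟨y, hy, hf⟩
    have h1 : ∀ i, (g i x).isSome := fun i => by rw [hy i]; rfl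
    rw [dif_pos h1]
    have : (fun i => (g i x).get (h1 i)) = y := by
      funext i
      have := hy i
      simp [this]
    rw [this]; exact hf

theorem comp_tot {n m : ℕ} (f : PF n) (g : Fin (n + 1) → TF m) (x : Fin (m + 1) → Bool) :
    comp f (fun i => tot (g i)) x = f (fun i => g i x) := by
  unfold comp
  have h : ∀ i, ((fun i => tot (g i)) i x).isSome = true := fun i => rfl
  rw [dif_pos h]
  rfl

/-- The largest element of `I_Str(D)`. -/
def Q (D : ∀ n, Set (TF n)) : ∀ n, Set (PF n) := fun n =>
  {g | ∀ k (h : Fin (n + 1) → TF k), (∀ i, h i ∈ D k) → ∀ F : TF k,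
    (∀ x, g (fun i => h i x) = some (F x)) → F ∈ D k}

theorem Q_mem {D : ∀ n, Set (TF n)} (hD : IsClone D) : Q D ∈ IStr D := by
  have htot : ∀ n (f : TF n), tot f ∈ Q D n ↔ f ∈ D n := by
    intro n f
    constructor
    · intro h
      exact h n (fun i x => x i) (fun i => hD.proj n i) f (fun x => rfl)
    · intro h k g hg F hF
      have : F = fun x => f (fun i => g i x) := by
        funext x
        have := hF x
        exact (Option.some_injective _ this).symm
      rw [this]
      exact hD.comp _ _ _ _ h hg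
  refine ⟨⟨fun n i => (htot n _).2 (hD.proj n i), ?_⟩, ?_, htot⟩
  · intro n m f g hf hg k h hh F hF
    have h1 : ∀ x, ∃ y : Fin (n + 1) → Bool, (∀ i, g i (fun j => h j x) = some (y i)) ∧
        f y = some (F x) := fun x => (comp_eq_some f g _ _).1 (hF x)
    choose y hy hfy using h1
    exact hf k (fun i x => y x i) (fun i => hg i k h hh _ (fun x => hy x i)) F hfy
  · intro n f g hf hgf k h hh F hF
    exact hf k h hh F (fun x => hgf _ _ (hF x))

theorem inter_mem {C D : ∀ n, Set (TF n)} (hD : IsClone D) (hDC : ∀ n, D n ⊆ C n)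
    {X : ∀ n, Set (PF n)} (hX : X ∈ IStr C) : (fun n => X n ∩ Q D n) ∈ IStr D := by
  obtain ⟨h1, h2, h3⟩ := hX
  obtain ⟨k1, k2, k3⟩ := Q_mem hD
  refine ⟨⟨fun n i => ⟨h1.proj n i, k1.proj n i⟩, fun n m f g hf hg =>
    ⟨h1.comp n m f g hf.1 (fun i => (hg i).1), k1.comp n m f g hf.2 (fun i => (hg i).2)⟩⟩,
    fun n f g hf hgf => ⟨h2 n f g hf.1 hgf, k2 n f g hf.2 hgf⟩, fun n f => ?_⟩
  constructor
  · intro h; exact (k3 n f).1 h.2
  · intro h; exact ⟨(h3 n f).2 (hDC n h), (k3 n f).2 h⟩

/-- total compositions of a member -/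
theorem mem_of_total {C : ∀ n, Set (TF n)} {X : ∀ n, Set (PF n)} (hX : X ∈ IStr C) {n k : ℕ}
    {f : PF n} (hf : f ∈ X n) (h : Fin (n + 1) → TF k) (hh : ∀ i, h i ∈ C k) (F : TF k)
    (hF : ∀ x, f (fun i => h i x) = some (F x)) : F ∈ C k := by
  obtain ⟨h1, h2, h3⟩ := hX
  rw [← h3]
  have : tot F = comp f (fun i => tot (h i)) := by
    funext x
    rw [comp_tot, hF]; rfl
  rw [this]
  exact h1.comp _ _ _ _ hf (fun i => (h3 _ _).2 (hh i))

/-- the criterion for the canonical map to be an order embedding -/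
theorem canon {C D : ∀ n, Set (TF n)} (hC : IsClone C) (hD : IsClone D)
    (hDC : ∀ n, D n ⊆ C n)
    (H : ∀ X ∈ IStr C, ∀ n (f : PF n), f ∈ X n → ∀ k (h : Fin (n + 1) → TF k),
      (∀ i, h i ∈ D k) → ∀ F : TF k, (∀ x, f (fun i => h i x) = some (F x)) → F ∈ C k →
      (∀ g ∈ C n, (fun x => g (fun i => h i x)) ∈ D k) → F ∈ D k) :
    Nonempty (IStr C ↪o IStr D) := by
  classical
  refine ⟨OrderEmbedding.ofMapLEIff
    (fun X => (⟨fun n => X.1 n ∩ Q D n, inter_mem hD hDC X.2⟩ : IStr D)) ?_⟩
  rintro ⟨X, hX⟩ ⟨Y, hY⟩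
  constructor
  · intro hle n f hf
    change f ∈ Y n
    have hle' : ∀ n (g : PF n), g ∈ X n → g ∈ Q D n → g ∈ Y n := fun n g h1 h2 =>
      (hle n ⟨h1, h2⟩).1
    obtain ⟨N, hN⟩ : ∃ N, Fintype.card (TF n) = N + 1 :=
      Nat.exists_eq_succ_of_ne_zero Fintype.card_ne_zero
    let e : Fin (N + 1) ≃ TF n := (Fintype.equivFinOfCardEq hN).symm
    let u : Fin (N + 1) → TF n := fun j => if e j ∈ C n then e j else fun x => x 0
    have hu : ∀ j, u j ∈ C n := by
      intro j
      by_cases hj : e j ∈ C n
      · simp only [u, if_pos hj]; exact hj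
      · simp only [u, if_neg hj]; exact hC.proj n 0
    have hue : ∀ g ∈ C n, ∃ j, u j = g := by
      intro g hg
      refine ⟨e.symm g, ?_⟩
      simp only [u, Equiv.apply_symm_apply, if_pos hg]
    choose r hr using fun i : Fin (n + 1) => hue _ (hC.proj n i)
    let f' : PF N := fun z => if ∀ j, z j = u j (fun i => z (r i)) then
      f (fun i => z (r i)) else none
    have hf'X : f' ∈ X N := by
      have h1 : comp f (fun i => tot (fun z : Fin (N + 1) → Bool => z (r i))) ∈ X N :=
        hX.1.comp _ _ _ _ hf (fun i => hX.1.proj _ _)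
      refine hX.2.1 N _ f' h1 ?_
      intro z b hz
      rw [comp_tot]
      simp only [f'] at hz
      split_ifs at hz with h2
      exact hz
    have hf'Q : f' ∈ Q D N := by
      intro k h hh F hF
      have h2 : ∀ x, (∀ j, h j x = u j (fun i => h (r i) x)) ∧
          f (fun i => h (r i) x) = some (F x) := by
        intro x
        have := hF x
        simp only [f'] at this
        split_ifs at this with h3
        exact ⟨h3, this⟩
      refine H X hX n f hf k (fun i => h (r i)) (fun i => hh _) F (fun x => (h2 x).2) ?_ ?_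
      · exact mem_of_total hX hf (fun i => h (r i)) (fun i => hDC _ (hh _)) F (fun x => (h2 x).2)
      · intro g hg
        obtain ⟨j, rfl⟩ := hue g hg
        have : (fun x => u j (fun i => h (r i) x)) = h j := by
          funext x
          exact ((h2 x).1 j).symm
        rw [this]; exact hh j
    have hf'Y : f' ∈ Y N := hle' N f' hf'X hf'Q
    have : f = comp f' (fun j => tot (u j)) := by
      funext x
      rw [comp_tot]
      have hx : (fun i => u (r i) x) = x := by
        funext i
        rw [hr]
      simp only [f']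
      rw [hx, if_pos (fun j => rfl)]
    rw [this]
    exact hY.1.comp _ _ _ _ hf'Y (fun j => (hY.2.2 _ _).2 (hu j))
  · intro hle n f hf
    exact ⟨hle n hf.1, hf.2⟩

end Pool.Agent.V6.ClA
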