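import Pool.Agent.V6.ClA.Cases

/-!
# Duality
-/

set_option autoImplicit false

namespace Pool.Agent.V6.ClA

variable {C D : ∀ n, Set (TF n)}

/-- the dual of a total function -/
def dualT {n : ℕ} (f : TF n) : TF n := fun x => !(f (fun i => !(x i)))

/-- the dual of a partial function -/
def dualP {n : ℕ} (f : PF n) : PF n := fun x => (f (fun i => !(x i))).map (fun b => !b)

theorem dualT_dualT {n : ℕ} (f : TF n) : dualT (dualT f) = f := by
  funext x; simp [dualT]

theorem dualP_dualP {n : ℕ} (f : PF n) : dualP (dualP f) = f := by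
  funext x
  simp only [dualP, Bool.not_not]
  cases f x <;> simp

theorem dualP_tot {n : ℕ} (f : TF n) : dualP (tot f) = tot (dualT f) := rfl

theorem dualP_some {n : ℕ} (f : PF n) (x : Fin (n + 1) → Bool) (b : Bool) :
    dualP f x = some b ↔ f (fun i => !(x i)) = some (!b) := by
  simp only [dualP]
  cases f (fun i => !(x i)) with
  | none => simp
  | some a => cases a <;> cases b <;> simp

def dualFam (C : ∀ n, Set (TF n)) : ∀ n, Set (TF n) := fun n => {f | dualT f ∈ C n}
def dualPF (P : ∀ n, Set (PF n)) : ∀ n, Set (PF n) := fun n => {f | dualP f ∈ P n}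

theorem dualFam_dualFam : dualFam (dualFam C) = C := by
  funext n
  ext f
  change dualT (dualT f) ∈ C n ↔ _
  rw [dualT_dualT]

theorem dualPF_dualPF (P : ∀ n, Set (PF n)) : dualPF (dualPF P) = P := by
  funext n
  ext f
  change dualP (dualP f) ∈ P n ↔ _
  rw [dualP_dualP]

theorem dual_clone (hC : IsClone C) : IsClone (dualFam C) := by
  constructor
  · intro n i
    change dualT _ ∈ C n
    have : dualT (fun x : Fin (n + 1) → Bool => x i) = fun x => x i := by
      funext x; simp [dualT]
    rw [this]; exact hC.proj n i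
  · intro n m f g hf hg
    change dualT _ ∈ C m
    have := hC.comp n m (dualT f) (fun i => dualT (g i)) hf hg
    have e : dualT (fun x => f (fun i => g i x)) = fun x => dualT f (fun i => dualT (g i) x) := by
      funext x
      simp [dualT]
    rw [e]; exact this

theorem dualP_comp {n m : ℕ} (f : PF n) (g : Fin (n + 1) → PF m) :
    dualP (comp f g) = comp (dualP f) (fun i => dualP (g i)) := by
  funext x
  apply Option.ext
  intro b
  change dualP (comp f g) x = some b ↔ comp (dualP f) (fun i => dualP (g i)) x = some b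
  rw [dualP_some, comp_eq_some, comp_eq_some]
  constructor
  · rintro ⟨y, hy, hf⟩
    refine ⟨fun i => !(y i), fun i => ?_, ?_⟩
    · rw [dualP_some, Bool.not_not]; exact hy i
    · rw [dualP_some]; simpa using hf
  · rintro ⟨y, hy, hf⟩
    refine ⟨fun i => !(y i), fun i => ?_, ?_⟩
    · have := hy i
      rw [dualP_some] at this; exact this
    · rw [dualP_some] at hf; exact hf

theorem dual_mem {P : ∀ n, Set (PF n)} (hP : P ∈ IStr C) : dualPF P ∈ IStr (dualFam C) := by
  obtain ⟨h1, h2, h3⟩ := hP
  refine ⟨⟨?_, ?_⟩, ?_, ?_⟩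
  · intro n i
    change dualP _ ∈ P n
    have : dualP (tot (fun x : Fin (n + 1) → Bool => x i)) = tot (fun x => x i) := by
      funext x; simp [dualP, tot]
    rw [this]; exact h1.proj n i
  · intro n m f g hf hg
    change dualP _ ∈ P m
    rw [dualP_comp]
    exact h1.comp n m _ _ hf hg
  · intro n f g hf hgf
    refine h2 n (dualP f) (dualP g) hf ?_
    intro x b hx
    rw [dualP_some] at hx ⊢
    exact hgf _ _ hx
  · intro n f
    change dualP (tot f) ∈ P n ↔ dualT f ∈ C n
    rw [dualP_tot]
    exact h3 n _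

/-- `I_Str` of the dual clone -/
def dualIso (C : ∀ n, Set (TF n)) : IStr C ≃o IStr (dualFam C) where
  toFun X := ⟨dualPF X.1, dual_mem X.2⟩
  invFun X := ⟨dualPF X.1, by
    have := dual_mem X.2
    rwa [dualFam_dualFam] at this⟩
  left_inv X := Subtype.ext (dualPF_dualPF X.1)
  right_inv X := Subtype.ext (dualPF_dualPF X.1)
  map_rel_iff' := by
    intro X Y
    constructor
    · intro h n f hf
      have := h n (show dualP f ∈ dualPF X.1 n from by
        change dualP (dualP f) ∈ X.1 n
        rw [dualP_dualP]; exact hf)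
      change dualP (dualP f) ∈ Y.1 n at this
      rwa [dualP_dualP] at this
    · intro h n f hf
      exact h n hf

theorem dual_embed (h : Nonempty (IStr (dualFam C) ↪o IStr (dualFam D))) :
    Nonempty (IStr C ↪o IStr D) := by
  obtain ⟨e⟩ := h
  exact ⟨((dualIso C).toOrderEmbedding.trans e).trans (dualIso D).symm.toOrderEmbedding⟩

theorem dual_U1 (u : Bool → Bool) : U1 (dualFam C) u ↔ U1 C (fun a => !(u (!a))) := Iff.rfl

theorem dual_T02 (h : T12 C) : T02 (dualFam C) := by
  intro n f hf x y hx hy
  obtain ⟨i, h1, h2⟩ := h n _ hf (fun i => !(x i)) (fun i => !(y i)) (by simp [dualT, hx])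
    (by simp [dualT, hy])
  exact ⟨i, by simpa using h1, by simpa using h2⟩

theorem dual_T12 (h : T02 C) : T12 (dualFam C) := by
  intro n f hf x y hx hy
  obtain ⟨i, h1, h2⟩ := h n _ hf (fun i => !(x i)) (fun i => !(y i)) (by simp [dualT, hx])
    (by simp [dualT, hy])
  exact ⟨i, by simpa using h1, by simpa using h2⟩

theorem dual_T02' (h : T02 (dualFam C)) : T12 C := by
  have := dual_T12 h
  rwa [dualFam_dualFam] at this

theorem dual_B2 (b : Bool → Bool → Bool) : B2 (dualFam C) b ↔ B2 C (fun s t => !(b (!s) (!t))) :=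
  Iff.rfl

end Pool.Agent.V6.ClA
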