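import Pool.Agent.V6.ClA.Lat

/-!
# The canonical map for clones containing `∧` and `∨`
-/

set_option autoImplicit false

namespace Pool.Agent.V6.ClA

variable {C D : ∀ n, Set (TF n)}

theorem z0 (hC : IsClone C) (ha : B2 C (fun a b => a && b)) (h0 : ¬ U1 C (fun _ => false)) {n : ℕ}
    {g : TF n} (hg : g ∈ C n) : g (fun _ => true) = true := by
  by_contra h
  have h' : g (fun _ => true) = false := by simpa using h
  apply h0
  have hd := U1_diag hC hg
  have h2 := c2 hC ha (hC.proj 0 0) hd
  have : (fun x : Fin 1 → Bool => x 0 && g (fun _ => x 0)) = fun _ => false := by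
    funext x
    cases x 0 <;> simp [h']
  rw [this] at h2
  exact h2

theorem z1 (hC : IsClone C) (ho : B2 C (fun a b => a || b)) (h0 : ¬ U1 C (fun _ => true)) {n : ℕ}
    {g : TF n} (hg : g ∈ C n) : g (fun _ => false) = false := by
  by_contra h
  have h' : g (fun _ => false) = true := by simpa using h
  apply h0
  have hd := U1_diag hC hg
  have h2 := c2 hC ho (hC.proj 0 0) hd
  have : (fun x : Fin 1 → Bool => x 0 || g (fun _ => x 0)) = fun _ => true := by
    funext x
    cases x 0 <;> simp [h']
  rw [this] at h2
  exact h2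

theorem maj_mem (hC : IsClone C) (ha : B2 C (fun a b => a && b)) (ho : B2 C (fun a b => a || b)) :
    T3 C maj :=
  c2 hC ho (c2 hC ho (c2 hC ha (hC.proj 2 0) (hC.proj 2 1)) (c2 hC ha (hC.proj 2 1) (hC.proj 2 2)))
    (c2 hC ha (hC.proj 2 0) (hC.proj 2 2))

theorem two01 (hC : IsClone C) (ha : B2 C (fun a b => a && b)) (ho : B2 C (fun a b => a || b))
    {X : ∀ n, Set (PF n)} (hX : X ∈ IStr C) {n : ℕ} {f : PF n} (hf : f ∈ X n) {k : ℕ}
    (h : Fin (n + 1) → TF k) (hh : ∀ i, h i ∈ C k) (F : TF k)
    (hF : ∀ x, f (fun i => h i x) = some (F x)) (hFC : F ∈ C k) (x y : Fin (k + 1) → Bool)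
    (hx : F x = false) (hy : F y = true) :
    ∃ g ∈ C n, g (fun i => h i x) = false ∧ g (fun i => h i y) = true := by
  by_cases e : ∃ i, h i x = false ∧ h i y = true
  · obtain ⟨i, h1, h2⟩ := e
    exact ⟨_, hC.proj n i, h1, h2⟩
  have hle : ∀ i, h i y = true → h i x = true := by
    intro i hi
    by_contra h1
    exact e ⟨i, by simpa using h1, hi⟩
  -- extreme points
  have ex1 : ¬ U1 C (fun _ => false) → ¬ (∀ i, h i x = true) := by
    intro h0 hall
    have e1 : (fun i => h i x) = fun i => h i (fun _ => true) := by
      funext i; rw [hall i, z0 hC ha h0 (hh i)]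
    have e2 := hF x
    rw [e1, hF, hx] at e2
    have := z0 hC ha h0 hFC
    rw [this] at e2
    simp at e2
  have ex0 : ¬ U1 C (fun _ => true) → ¬ (∀ i, h i y = false) := by
    intro h0 hall
    have e1 : (fun i => h i y) = fun i => h i (fun _ => false) := by
      funext i; rw [hall i, z1 hC ho h0 (hh i)]
    have e2 := hF y
    rw [e1, hF, hy] at e2
    have := z1 hC ho h0 hFC
    rw [this] at e2
    simp at e2
  by_cases mon : ∀ n, ∀ g ∈ C n, ∀ u v : Fin (n + 1) → Bool, (∀ i, u i = true → v i = true) →
      g u = true → g v = true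
  · exfalso
    classical
    obtain ⟨w1, hw1, k1, k1'⟩ : ∃ w : TF 2, w ∈ C 2 ∧ (∀ z, w z = false →
        ¬ U1 C (fun _ => true)) ∧ (∀ z, (z 0 = true ∨ z 1 = true ∨ z 2 = true) → w z = true) := by
      by_cases h1 : U1 C (fun _ => true)
      · exact ⟨_, const_mem hC h1 2, fun z hz => by simp at hz, fun z _ => rfl⟩
      · refine ⟨_, c2 hC ho (c2 hC ho (hC.proj 2 0) (hC.proj 2 1)) (hC.proj 2 2),
          fun _ _ => h1, fun z hz => ?_⟩
        rcases hz with hz | hz | hz <;> simp [hz]
    obtain ⟨w3, hw3, k3, k3'⟩ : ∃ w : TF 2, w ∈ C 2 ∧ (∀ z, w z = true →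
        ¬ U1 C (fun _ => false)) ∧ (∀ z, (z 0 = false ∨ z 1 = false ∨ z 2 = false) →
          w z = false) := by
      by_cases h1 : U1 C (fun _ => false)
      · exact ⟨_, const_mem hC h1 2, fun z hz => by simp at hz, fun z _ => rfl⟩
      · refine ⟨_, c2 hC ha (c2 hC ha (hC.proj 2 0) (hC.proj 2 1)) (hC.proj 2 2),
          fun _ _ => h1, fun z hz => ?_⟩
        rcases hz with hz | hz | hz <;> simp [hz]
    have hw2 : (fun z : Fin 3 → Bool => maj (z 0) (z 1) (z 2)) ∈ C 2 := maj_mem hC ha ho
    have m21 : ∀ z : Fin 3 → Bool, maj (z 0) (z 1) (z 2) = true → w1 z = true := by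
      intro z hz
      apply k1'
      by_contra hcon
      push Not at hcon
      obtain ⟨a1, a2, a3⟩ := hcon
      simp [maj, a1, a2, a3] at hz
    have m32 : ∀ z : Fin 3 → Bool, w3 z = true → maj (z 0) (z 1) (z 2) = true := by
      intro z hz
      have : z 0 = true ∧ z 1 = true ∧ z 2 = true := by
        refine ⟨?_, ?_, ?_⟩ <;> by_contra hcon
        · have := k3' z (Or.inl (by simpa using hcon)); simp [this] at hz
        · have := k3' z (Or.inr (Or.inl (by simpa using hcon))); simp [this] at hz
        · have := k3' z (Or.inr (Or.inr (by simpa using hcon))); simp [this] at hz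
      simp [maj, this]
    let h' : Fin (n + 1) → TF 2 := fun i =>
      if h i x = true then (if h i y = true then w1 else fun z => maj (z 0) (z 1) (z 2)) else w3
    have hh' : ∀ i, h' i ∈ C 2 := by
      intro i
      simp only [h']
      split_ifs
      exacts [hw1, hw2, hw3]
    have ev : ∀ z : Fin 3 → Bool, ∀ t : Fin (k + 1) → Bool,
        ((w3 z = true ∧ t = fun _ => true) ∨
        (w3 z = false ∧ maj (z 0) (z 1) (z 2) = true ∧ t = x) ∨
        (w3 z = false ∧ maj (z 0) (z 1) (z 2) = false ∧ w1 z = true ∧ t = y) ∨
        (w1 z = false ∧ t = fun _ => false)) → (fun i => h' i z) = fun i => h i t := by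
      intro z t ht
      funext i
      rcases ht with ⟨a1, rfl⟩ | ⟨a1, a2, rfl⟩ | ⟨a1, a2, a3, rfl⟩ | ⟨a1, rfl⟩
      · rw [z0 hC ha (k3 z a1) (hh i)]
        simp only [h']
        have a2 := m32 z a1
        have a3 := m21 z a2
        split_ifs
        exacts [a3, a2, a1]
      · have a3 := m21 z a2
        simp only [h']
        cases hi : h i t
        · simp [a1]
        · simp only [if_true]
          split_ifs
          exacts [a3, a2]
      · simp only [h']
        cases hi : h i t
        · simp only [Bool.false_eq_true, if_false]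
          split_ifs
          exacts [a2, a1]
        · simp [hle i hi, a3]
      · rw [z1 hC ho (k1 z a1) (hh i)]
        have a2 : maj (z 0) (z 1) (z 2) = false := by
          by_contra hcon
          have := m21 z (by simpa using hcon)
          simp [this] at a1
        have a3 : w3 z = false := by
          by_contra hcon
          have := m32 z (by simpa using hcon)
          simp [this] at a2
        simp only [h']
        split_ifs
        exacts [a1, a2, a3]
    have tex : ∀ z : Fin 3 → Bool, ∃ t : Fin (k + 1) → Bool,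
        (fun i => h' i z) = fun i => h i t := by
      intro z
      cases a1 : w3 z
      · cases a2 : maj (z 0) (z 1) (z 2)
        · cases a3 : w1 z
          · exact ⟨_, ev z _ (Or.inr (Or.inr (Or.inr ⟨a3, rfl⟩)))⟩
          · exact ⟨_, ev z _ (Or.inr (Or.inr (Or.inl ⟨a1, a2, a3, rfl⟩)))⟩
        · exact ⟨_, ev z _ (Or.inr (Or.inl ⟨a1, a2, rfl⟩))⟩
      · exact ⟨_, ev z _ (Or.inl ⟨a1, rfl⟩)⟩
    choose t ht using tex
    have hG : (fun z => F (t z)) ∈ C 2 := by
      refine mem_of_total hX hf h' hh' _ ?_
      intro z
      rw [ht z, hF]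
    have g1 : F (t ![true, false, false]) = true := by
      have e1 := ev ![true, false, false] y (Or.inr (Or.inr (Or.inl
        ⟨k3' _ (Or.inr (Or.inl rfl)), rfl, k1' _ (Or.inl rfl), rfl⟩)))
      rw [ht] at e1
      have e2 := hF (t ![true, false, false])
      rw [e1, hF, hy] at e2
      exact (Option.some_injective _ e2).symm
    have g2 : F (t ![true, true, false]) = false := by
      have e1 := ev ![true, true, false] x (Or.inr (Or.inl
        ⟨k3' _ (Or.inr (Or.inr rfl)), rfl, rfl⟩))
      rw [ht] at e1
      have e2 := hF (t ![true, true, false])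
      rw [e1, hF, hx] at e2
      exact (Option.some_injective _ e2).symm
    have := mon 2 _ hG ![true, false, false] ![true, true, false] (by
      intro i; fin_cases i <;> simp) g1
    simp [g2] at this
  · push Not at mon
    obtain ⟨m, g, hg, u, v, huv, hgu, hgv⟩ := mon
    have hgv' : g v = false := by simpa using hgv
    have hν := T3_minor hC hg (fun i => !(u i) && v i) (fun i => u i)
    have ν1 : g (fun i => if (!(u i) && v i) = true then false else if u i = true then true
        else false) = true := by
      have e1 : (fun i => if (!(u i) && v i) = true then false else if u i = true then true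
        else false) = u := by
        funext i
        cases u i <;> cases v i <;> rfl
      rw [e1]; exact hgu
    have ν2 : g (fun i => if (!(u i) && v i) = true then true else if u i = true then true
        else false) = false := by
      have e1 : (fun i => if (!(u i) && v i) = true then true else if u i = true then true
        else false) = v := by
        funext i
        have := huv i
        revert this
        cases u i <;> cases v i <;> simp
      rw [e1]; exact hgv'
    obtain ⟨u0, hu0, p0, p0'⟩ : ∃ u0 ∈ C n, u0 (fun i => h i x) = false ∧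
        u0 (fun i => h i y) = false := by
      by_cases e0 : ∃ i, h i x = false
      · obtain ⟨i, hi⟩ := e0
        refine ⟨_, hC.proj n i, hi, ?_⟩
        by_contra hcon
        have := hle i (by simpa using hcon)
        simp [this] at hi
      · by_cases h0 : U1 C (fun _ => false)
        · exact ⟨_, const_mem hC h0 n, rfl, rfl⟩
        · exfalso
          refine ex1 h0 (fun i => ?_)
          by_contra hcon
          exact e0 ⟨i, by simpa using hcon⟩
    obtain ⟨u2, hu2, p2, p2'⟩ : ∃ u0 ∈ C n, u0 (fun i => h i x) = true ∧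
        u0 (fun i => h i y) = true := by
      by_cases e0 : ∃ i, h i y = true
      · obtain ⟨i, hi⟩ := e0
        exact ⟨_, hC.proj n i, hle i hi, hi⟩
      · by_cases h0 : U1 C (fun _ => true)
        · exact ⟨_, const_mem hC h0 n, rfl, rfl⟩
        · exfalso
          refine ex0 h0 (fun i => ?_)
          by_contra hcon
          exact e0 ⟨i, by simpa using hcon⟩
    obtain ⟨i1, p1, p1'⟩ : ∃ i, h i x = true ∧ h i y = false := by
      by_contra hcon
      push Not at hcon
      have : (fun i => h i x) = fun i => h i y := by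
        funext i
        cases a : h i x
        · by_contra b
          have := hle i (by
            cases c : h i y
            · rw [c] at b; exact absurd rfl b
            · rfl)
          simp [this] at a
        · have := hcon i a
          simpa using this
      have e2 := hF x
      rw [this, hF, hx, hy] at e2
      simp at e2
    refine ⟨_, c3 hC hν hu0 (hC.proj n i1) hu2, ?_, ?_⟩
    · simp only [p0, p1, p2]
      exact ν2
    · simp only [p0', p1', p2']
      exact ν1

theorem emb_lattice (hC : IsClone C) (hD : IsClone D) (hDC : ∀ n, D n ⊆ C n)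
    (ha : B2 C (fun a b => a && b)) (ho : B2 C (fun a b => a || b)) :
    Nonempty (IStr C ↪o IStr D) := by
  apply canon_of_two hC hD hDC (maj_mem hC ha ho)
  intro X hX n f hf k h hh F hF hFC x y
  have ex1 : ∀ x, F x = false → ¬ U1 C (fun _ => false) → ∃ i, h i x = false := by
    intro x hx h0
    by_contra hall
    have e1 : (fun i => h i x) = fun i => h i (fun _ => true) := by
      funext i; rw [z0 hC ha h0 (hh i)]
      by_contra hcon
      exact hall ⟨i, by simpa using hcon⟩
    have e2 := hF x
    rw [e1, hF, hx] at e2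
    have := z0 hC ha h0 hFC
    rw [this] at e2
    simp at e2
  have ex0 : ∀ x, F x = true → ¬ U1 C (fun _ => true) → ∃ i, h i x = true := by
    intro x hx h0
    by_contra hall
    have e1 : (fun i => h i x) = fun i => h i (fun _ => false) := by
      funext i; rw [z1 hC ho h0 (hh i)]
      by_contra hcon
      exact hall ⟨i, by simpa using hcon⟩
    have e2 := hF x
    rw [e1, hF, hx] at e2
    have := z1 hC ho h0 hFC
    rw [this] at e2
    simp at e2
  cases hx : F x <;> cases hy : F y
  · by_cases h0 : U1 C (fun _ => false)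
    · exact ⟨_, const_mem hC h0 n, rfl, rfl⟩
    · obtain ⟨i, hi⟩ := ex1 x hx h0
      obtain ⟨j, hj⟩ := ex1 y hy h0
      exact ⟨_, c2 hC ha (hC.proj n i) (hC.proj n j), by simp [hi], by simp [hj]⟩
  · exact two01 hC ha ho hX hf h hh F hF hFC x y hx hy
  · obtain ⟨g, hg, h1, h2⟩ := two01 hC ha ho hX hf h hh F hF hFC y x hy hx
    exact ⟨g, hg, h2, h1⟩
  · by_cases h0 : U1 C (fun _ => true)
    · exact ⟨_, const_mem hC h0 n, rfl, rfl⟩
    · obtain ⟨i, hi⟩ := ex0 x hx h0
      obtain ⟨j, hj⟩ := ex0 y hy h0
      exact ⟨_, c2 hC ho (hC.proj n i) (hC.proj n j), by simp [hi], by simp [hj]⟩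

end Pool.Agent.V6.ClA
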