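import Pool.Agent.V6.ClA.Lat

/-!
# Affine functions, disjunctions
-/

set_option autoImplicit false

namespace Pool.Agent.V6.ClA

variable {C D : ∀ n, Set (TF n)}

/-- the sum of the `x i`, `i ∈ T` -/
def sx {n : ℕ} (T : Finset (Fin (n + 1))) (x : Fin (n + 1) → Bool) : Bool :=
  decide (Odd ((T.filter (fun i => x i = true)).card))

theorem sx_empty {n : ℕ} (x : Fin (n + 1) → Bool) : sx ∅ x = false := by
  simp [sx]

theorem sx_insert {n : ℕ} {T : Finset (Fin (n + 1))} {i : Fin (n + 1)} (hi : i ∉ T)
    (x : Fin (n + 1) → Bool) : sx (insert i T) x = xor (x i) (sx T x) := by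
  unfold sx
  rw [Finset.filter_insert]
  cases h : x i
  · simp
  · have hn : i ∉ T.filter (fun i => x i = true) := fun h' => hi (Finset.mem_filter.1 h').1
    rw [if_pos rfl, Finset.card_insert_of_notMem hn]
    by_cases ho : Odd ((T.filter (fun i => x i = true)).card)
    · simp [ho, Nat.odd_add_one]
    · simp [ho, Nat.odd_add_one]

theorem sx_congr {n : ℕ} {T : Finset (Fin (n + 1))} {x y : Fin (n + 1) → Bool}
    (h : ∀ i ∈ T, x i = y i) : sx T x = sx T y := by
  unfold sx
  rw [Finset.filter_congr (fun i hi => by rw [h i hi])]

/-- the unit vector -/
def ev {n : ℕ} (i : Fin (n + 1)) : Fin (n + 1) → Bool := fun j => decide (j = i)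

/-- `x` restricted to `A` -/
def rs {n : ℕ} (A : Finset (Fin (n + 1))) (x : Fin (n + 1) → Bool) : Fin (n + 1) → Bool :=
  fun i => decide (i ∈ A) && x i

theorem rs_univ {n : ℕ} (x : Fin (n + 1) → Bool) : rs Finset.univ x = x := by
  funext i
  simp [rs]

theorem rs_empty {n : ℕ} (x : Fin (n + 1) → Bool) : rs ∅ x = fun _ => false := by
  funext i
  simp [rs]

theorem aff {n : ℕ} {f : TF n}
    (hf : ∀ x y z, f (fun i => mi3 (x i) (y i) (z i)) = mi3 (f x) (f y) (f z)) :
    ∃ T : Finset (Fin (n + 1)), ∀ x, f x = xor (f (fun _ => false)) (sx T x) := by
  classical
  refine ⟨Finset.univ.filter (fun i => f (ev i) ≠ f (fun _ => false)), fun x => ?_⟩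
  have key : ∀ A : Finset (Fin (n + 1)), f (rs A x) = xor (f (fun _ => false))
      (sx (A.filter (fun i => f (ev i) ≠ f (fun _ => false))) x) := by
    intro A
    induction A using Finset.induction_on with
    | empty => rw [rs_empty, Finset.filter_empty, sx_empty, Bool.xor_false]
    | insert j A hj ih =>
      cases hx : x j
      · have e : rs (insert j A) x = rs A x := by
          funext i
          by_cases hij : i = j
          · subst hij
            simp [rs, hx]
          · simp [rs, hij]
        rw [e, ih, Finset.filter_insert]
        split_ifs with h1
        · rw [sx_insert (fun h => hj (Finset.mem_filter.1 h).1), hx, Bool.false_xor]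
        · rfl
      · have e : rs (insert j A) x = fun i => mi3 (rs A x i) (ev j i) false := by
          funext i
          by_cases hij : i = j
          · subst hij
            simp [rs, ev, mi3, hx, hj]
          · simp [rs, ev, mi3, hij]
        have h2 := hf (rs A x) (ev j) (fun _ => false)
        rw [e, h2, ih, Finset.filter_insert]
        split_ifs with h1
        · rw [sx_insert (fun h => hj (Finset.mem_filter.1 h).1), hx]
          revert h1
          generalize sx (A.filter (fun i => f (ev i) ≠ f (fun _ => false))) x = r
          generalize f (ev j) = p
          generalize f (fun _ => false) = q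
          cases p <;> cases q <;> cases r <;> simp [mi3]
        · have h3 : f (ev j) = f (fun _ => false) := by simpa using h1
          rw [h3]
          generalize sx (A.filter (fun i => f (ev i) ≠ f (fun _ => false))) x = r
          generalize f (fun _ => false) = q
          cases q <;> cases r <;> simp [mi3]
  have := key Finset.univ
  rwa [rs_univ] at this

theorem sum_mem (hD : IsClone D) (hm : T3 D mi3) {n : ℕ} (c : Bool) :
    ∀ (N : ℕ) (T : Finset (Fin (n + 1))), T.card = N →
      U1 D (fun a => xor c (sx T (fun _ => a))) → (fun x => xor c (sx T x)) ∈ D n := by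
  intro N
  induction N using Nat.strong_induction_on with
  | _ N ih =>
    intro T hT hu
    by_cases h1 : 1 < T.card
    · obtain ⟨i, hi, j, hj, hij⟩ := Finset.one_lt_card.1 h1
      obtain ⟨T', hT', hiT, hjT, hc⟩ : ∃ T', T = insert i (insert j T') ∧ i ∉ insert j T' ∧
          j ∉ T' ∧ T'.card < N := by
        refine ⟨(T.erase i).erase j, ?_, ?_, ?_, ?_⟩
        · rw [Finset.insert_erase (Finset.mem_erase.2 ⟨hij.symm, hj⟩), Finset.insert_erase hi]
        · rw [Finset.insert_erase (Finset.mem_erase.2 ⟨hij.symm, hj⟩)]
          exact Finset.notMem_erase i T
        · exact Finset.notMem_erase j _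
        · have := Finset.card_erase_of_mem (Finset.mem_erase.2 ⟨hij.symm, hj⟩)
          have := Finset.card_erase_of_mem hi
          omega
      have e : ∀ x, sx T x = xor (x i) (xor (x j) (sx T' x)) := by
        intro x
        rw [hT', sx_insert hiT, sx_insert hjT]
      have h2 := ih _ hc T' rfl (by
        have e2 : (fun a => xor c (sx T' (fun _ => a))) = fun a => xor c (sx T (fun _ => a)) := by
          funext a
          rw [e]
          cases a <;> simp
        rw [e2]
        exact hu)
      have h3 := c3 hD hm h2 (hD.proj n i) (hD.proj n j)
      have e3 : (fun x : Fin (n + 1) → Bool => xor c (sx T x)) =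
          fun x => mi3 (xor c (sx T' x)) (x i) (x j) := by
        funext x
        rw [e]
        generalize sx T' x = r
        cases c <;> cases x i <;> cases x j <;> cases r <;> simp [mi3]
      rw [e3]
      exact h3
    · have h4 : T.card = 0 ∨ T.card = 1 := by omega
      rcases h4 with h4 | h4
      · rw [Finset.card_eq_zero] at h4
        subst h4
        have e : (fun x : Fin (n + 1) → Bool => xor c (sx ∅ x)) = fun _ => c := by
          funext x
          rw [sx_empty, Bool.xor_false]
        rw [e]
        have e2 : (fun a => xor c (sx (∅ : Finset (Fin (n + 1))) (fun _ => a))) = fun _ => c := by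
          funext a
          rw [sx_empty, Bool.xor_false]
        rw [e2] at hu
        exact const_mem hD hu n
      · obtain ⟨i, hi⟩ := Finset.card_eq_one.1 h4
        subst hi
        have e : ∀ x, sx {i} x = x i := by
          intro x
          rw [← insert_empty_eq, sx_insert (Finset.notMem_empty _), sx_empty, Bool.xor_false]
        have h5 := c1 hD hu (hD.proj n i)
        have e2 : (fun x : Fin (n + 1) → Bool => xor c (sx {i} x)) =
            fun x => (fun a => xor c (sx {i} (fun _ : Fin (n + 1) => a))) (x i) := by
          funext x
          simp only [e]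
        rw [e2]
        exact h5

theorem lin_sub (hC : IsClone C) (hD : IsClone D)
    (hL : ∀ n, ∀ f ∈ C n, ∀ x y z, f (fun i => mi3 (x i) (y i) (z i)) = mi3 (f x) (f y) (f z))
    (hm : T3 D mi3) (hu : ∀ u, U1 C u → U1 D u) : ∀ n, C n ⊆ D n := by
  intro n f hf
  obtain ⟨T, hT⟩ := aff (hL n f hf)
  have h1 := sum_mem hD hm (n := n) (f (fun _ => false)) T.card T rfl (by
    have h2 := hu _ (U1_diag hC hf)
    have e : (fun a => f (fun _ => a)) =
        fun a => xor (f (fun _ => false)) (sx T (fun _ => a)) := funext fun a => hT _
    rwa [e] at h2)
  have e : f = fun x => xor (f (fun _ => false)) (sx T x) := funext hT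
  rw [e]
  exact h1

theorem lin_eu (hD : IsClone D)
    (hL : ∀ n, ∀ f ∈ D n, ∀ x y z, f (fun i => mi3 (x i) (y i) (z i)) = mi3 (f x) (f y) (f z))
    (hm : ¬ T3 D mi3) : ∀ n, ∀ f ∈ D n, ∃ (i : Fin (n + 1)) (u : Bool → Bool),
      ∀ x, f x = u (x i) := by
  intro n f hf
  obtain ⟨T, hT⟩ := aff (hL n f hf)
  generalize hc : f (fun _ => false) = c at hT
  by_cases h1 : 1 < T.card
  · exfalso
    obtain ⟨i, hi, j, hj, hij⟩ := Finset.one_lt_card.1 h1
    obtain ⟨T', hT', hiT, hjT⟩ : ∃ T', T = insert i (insert j T') ∧ i ∉ insert j T' ∧
        j ∉ T' := by
      refine ⟨(T.erase i).erase j, ?_, ?_, ?_⟩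
      · rw [Finset.insert_erase (Finset.mem_erase.2 ⟨hij.symm, hj⟩), Finset.insert_erase hi]
      · rw [Finset.insert_erase (Finset.mem_erase.2 ⟨hij.symm, hj⟩)]
        exact Finset.notMem_erase i T
      · exact Finset.notMem_erase j _
    have e : ∀ x, f x = xor c (xor (x i) (xor (x j) (sx T' x))) := by
      intro x
      rw [hT x, hT', sx_insert hiT, sx_insert hjT]
    have h2 := T3_minor hD hf (fun k => decide (k = i)) (fun k => decide (k = j))
    have h3 : ∀ a b z, f (fun k => if decide (k = i) then b else if decide (k = j) then z else a) =
        xor c (xor b (xor z (sx T' (fun _ => true) && a))) := by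
      intro a b z
      rw [e]
      have h4 : sx T' (fun k => if decide (k = i) then b else if decide (k = j) then z else a) =
          sx T' (fun _ => a) := by
        apply sx_congr
        intro k hk
        have hki : k ≠ i := fun h => hiT (h ▸ Finset.mem_insert_of_mem hk)
        have hkj : k ≠ j := fun h => hjT (h ▸ hk)
        simp [hki, hkj]
      rw [h4]
      have h5 : sx T' (fun _ => a) = (sx T' (fun _ => true) && a) := by
        cases a
        · simp [sx]
        · simp
      rw [h5]
      have hji : ¬ j = i := fun h => hij h.symm
      simp [hji]
    have h6 : T3 D (fun a b z => xor c (xor b (xor z (sx T' (fun _ => true) && a)))) := by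
      have e6 : (fun a b z => xor c (xor b (xor z (sx T' (fun _ => true) && a)))) =
          fun a b z => f (fun k => if decide (k = i) then b else
            if decide (k = j) then z else a) := by
        funext a b z
        rw [h3]
      rw [e6]
      exact h2
    generalize sx T' (fun _ => true) = γ at h6
    apply hm
    cases γ
    · -- `G' (G' a b) z`
      have h7 := c3 hD h6 (hD.proj 2 0) (c3 hD h6 (hD.proj 2 0) (hD.proj 2 0) (hD.proj 2 1))
        (hD.proj 2 2)
      unfold T3
      have e7 : (fun x : Fin 3 → Bool => mi3 (x 0) (x 1) (x 2)) =
          fun x => (fun a b z => xor c (xor b (xor z (false && a)))) (x 0)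
            ((fun a b z => xor c (xor b (xor z (false && a)))) (x 0) (x 0) (x 1)) (x 2) := by
        funext x
        cases c <;> cases x 0 <;> cases x 1 <;> cases x 2 <;> simp [mi3]
      rw [e7]
      exact h7
    · cases c
      · have e7 : mi3 = fun a b z => xor false (xor b (xor z (true && a))) := by
          funext a b z
          cases a <;> cases b <;> cases z <;> simp [mi3]
        rw [e7]
        exact h6
      · have h8 : U1 D (fun a => !a) := by
          have h9 := U1_diag hD h6
          have e9 : (fun a => (fun x : Fin 3 → Bool => (fun a b z =>
              xor true (xor b (xor z (true && a)))) (x 0) (x 1) (x 2)) (fun _ => a)) =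
              fun a => !a := by
            funext a
            cases a <;> simp
          rwa [e9] at h9
        have h10 := c1 hD h8 h6
        unfold T3
        have e7 : (fun x : Fin 3 → Bool => mi3 (x 0) (x 1) (x 2)) =
            fun x => (fun a => !a) ((fun a b z => xor true (xor b (xor z (true && a))))
              (x 0) (x 1) (x 2)) := by
          funext x
          cases x 0 <;> cases x 1 <;> cases x 2 <;> simp [mi3]
        rw [e7]
        exact h10
  · have h4 : T.card = 0 ∨ T.card = 1 := by omega
    rcases h4 with h4 | h4
    · rw [Finset.card_eq_zero] at h4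
      subst h4
      exact ⟨0, fun _ => c, fun x => by rw [hT, sx_empty, Bool.xor_false]⟩
    · obtain ⟨i, hi⟩ := Finset.card_eq_one.1 h4
      subst hi
      refine ⟨i, fun a => xor c a, fun x => ?_⟩
      rw [hT, ← insert_empty_eq, sx_insert (Finset.notMem_empty _), sx_empty, Bool.xor_false]

/-- the disjunction of the relevant variables -/
theorem vee_form {n : ℕ} {f : TF n} (hf : ∀ x y, f (fun i => x i || y i) = (f x || f y))
    (x : Fin (n + 1) → Bool) (A : Finset (Fin (n + 1))) :
    f (rs A x) = (f (fun _ => false) || decide (∃ i ∈ A, x i = true ∧ f (ev i) = true)) := by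
  classical
  induction A using Finset.induction_on with
  | empty => simp [rs_empty]
  | insert j A hj ih =>
    cases hx : x j
    · have e : rs (insert j A) x = rs A x := by
        funext i
        by_cases hij : i = j
        · subst hij
          simp [rs, hx]
        · simp [rs, hij]
      rw [e, ih]
      congr 1
      simp [hx]
    · have e : rs (insert j A) x = fun i => rs A x i || ev j i := by
        funext i
        by_cases hij : i = j
        · subst hij
          simp [rs, ev, hx]
        · simp [rs, ev, hij]
      rw [e, hf, ih]
      by_cases h1 : f (ev j) = true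
      · simp [hx, h1]
      · simp [hx, h1]

theorem vee_sub (hC : IsClone C) (hD : IsClone D)
    (hV : ∀ n, ∀ f ∈ C n, ∀ x y, f (fun i => x i || y i) = (f x || f y))
    (ho : B2 D (fun a b => a || b)) (h0 : U1 D (fun _ => false)) (hu : ∀ u, U1 C u → U1 D u) :
    ∀ n, C n ⊆ D n := by
  classical
  intro n f hf
  have hv := hV n f hf
  by_cases h1 : f (fun _ => false) = true
  · have e : f = fun _ => true := by
      funext x
      have h2 := hv x (fun _ => false)
      simp only [Bool.or_false, h1, Bool.or_true] at h2
      exact h2
    have h3 := hu _ (U1_diag hC hf)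
    have e3 : (fun a => f (fun _ => a)) = fun _ => true := by
      funext a
      rw [e]
    rw [e3] at h3
    rw [e]
    exact const_mem hD h3 n
  · have h1' : f (fun _ => false) = false := by simpa using h1
    have key : ∀ A : Finset (Fin (n + 1)), (fun x => f (rs A x)) ∈ D n := by
      intro A
      induction A using Finset.induction_on with
      | empty =>
        have e : (fun x : Fin (n + 1) → Bool => f (rs ∅ x)) = fun _ => false := by
          funext x
          rw [rs_empty, h1']
        rw [e]
        exact const_mem hD h0 n
      | insert j A hj ih =>
        by_cases h2 : f (ev j) = true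
        · have h3 := c2 hD ho ih (hD.proj n j)
          have e : (fun x : Fin (n + 1) → Bool => f (rs (insert j A) x)) =
              fun x => (f (rs A x) || x j) := by
            funext x
            rw [vee_form hv, vee_form hv, h1']
            cases hx : x j
            · simp [hx]
            · simp [hx, h2]
          rw [e]
          exact h3
        · have e : (fun x : Fin (n + 1) → Bool => f (rs (insert j A) x)) =
              fun x => f (rs A x) := by
            funext x
            rw [vee_form hv, vee_form hv]
            simp [h2]
          rw [e]
          exact ih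
    have := key Finset.univ
    have e : (fun x : Fin (n + 1) → Bool => f (rs Finset.univ x)) = f := by
      funext x
      rw [rs_univ]
    rwa [e] at this

theorem vee_eu (hD : IsClone D)
    (hV : ∀ n, ∀ f ∈ D n, ∀ x y, f (fun i => x i || y i) = (f x || f y))
    (ho : ¬ B2 D (fun a b => a || b)) : ∀ n, ∀ f ∈ D n, ∃ (i : Fin (n + 1)) (u : Bool → Bool),
      ∀ x, f x = u (x i) := by
  classical
  intro n f hf
  have hv := hV n f hf
  have hform : ∀ x, f x = (f (fun _ => false) || decide (∃ i, x i = true ∧ f (ev i) = true)) := by
    intro x
    have := vee_form hv x Finset.univ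
    rw [rs_univ] at this
    simpa using this
  cases h0 : f (fun _ => false)
  · rw [h0] at hform
    simp only [Bool.false_or] at hform
    by_cases h1 : ∃ i, f (ev i) = true
    · obtain ⟨i, hi⟩ := h1
      by_cases h2 : ∃ j, j ≠ i ∧ f (ev j) = true
      · exfalso
        obtain ⟨j, hji, hj⟩ := h2
        apply ho
        have h3 := B2_minor hD hf (fun k => decide (k = i))
        have e : (fun a b => f (fun k => if decide (k = i) then a else b)) =
            fun a b : Bool => (a || b) := by
          funext a b
          rw [hform]
          cases a
          · cases b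
            · simp
            · simp only [Bool.false_or, decide_eq_true_eq]
              exact ⟨j, by simp [hji], hj⟩
          · simp only [Bool.true_or, decide_eq_true_eq]
            exact ⟨i, by simp, hi⟩
        rw [e] at h3
        exact h3
      · refine ⟨i, fun a => a, fun x => ?_⟩
        rw [hform]
        cases hx : x i
        · simp only [decide_eq_false_iff_not]
          rintro ⟨k, hk, hk2⟩
          by_cases hki : k = i
          · rw [hki, hx] at hk
            exact absurd hk (by simp)
          · exact h2 ⟨k, hki, hk2⟩
        · simp only [decide_eq_true_eq]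
          exact ⟨i, hx, hi⟩
    · refine ⟨0, fun _ => false, fun x => ?_⟩
      rw [hform]
      simp only [decide_eq_false_iff_not]
      rintro ⟨k, -, hk⟩
      exact h1 ⟨k, hk⟩
  · refine ⟨0, fun _ => true, fun x => ?_⟩
    rw [hform, h0, Bool.true_or]

theorem T3_signed (hC : IsClone C) (hN : U1 C (fun a => !a)) {n : ℕ} {f : TF n} (hf : f ∈ C n)
    (s : Fin (n + 1) → Bool) (σ : Fin (n + 1) → Fin 3) :
    (fun x : Fin 3 → Bool => f (fun k => xor (s k) (x (σ k)))) ∈ C 2 := by
  refine hC.comp n 2 f (fun k x => xor (s k) (x (σ k))) hf (fun k => ?_)
  cases s k
  · have e : (fun x : Fin 3 → Bool => xor false (x (σ k))) = fun x => x (σ k) := by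
      funext x
      rw [Bool.false_xor]
    rw [e]
    exact hC.proj 2 (σ k)
  · have e : (fun x : Fin 3 → Bool => xor true (x (σ k))) = fun x => (fun a => !a) (x (σ k)) := by
      funext x
      rw [Bool.true_xor]
    rw [e]
    exact c1 hC hN (hC.proj 2 (σ k))

theorem nonlin_face (hC : IsClone C) (hN : U1 C (fun a => !a)) {n : ℕ} {f : TF n} (hf : f ∈ C n)
    {x y z : Fin (n + 1) → Bool}
    (h : f (fun i => mi3 (x i) (y i) (z i)) ≠ mi3 (f x) (f y) (f z)) :
    ∃ G : Bool → Bool → Bool → Bool, T3 C G ∧
      xor (xor (G false false false) (G true false false))
        (xor (G false true false) (G true true false)) = true := by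
  obtain ⟨φ, hφ⟩ : ∃ φ : Bool → Bool → Bool → Bool, φ = fun a b c => f (fun k => xor (x k)
      (if xor (x k) (y k) then (if xor (x k) (z k) then c else a) else
        (if xor (x k) (z k) then b else false))) := ⟨_, rfl⟩
  have p0 : φ false false false = f x := by
    rw [hφ]
    simp only
    congr 1
    funext k
    cases x k <;> cases y k <;> cases z k <;> simp
  have p1 : φ true false true = f y := by
    rw [hφ]
    simp only
    congr 1
    funext k
    cases x k <;> cases y k <;> cases z k <;> simp
  have p2 : φ false true true = f z := by
    rw [hφ]
    simp only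
    congr 1
    funext k
    cases x k <;> cases y k <;> cases z k <;> simp
  have p3 : φ true true false = f (fun i => mi3 (x i) (y i) (z i)) := by
    rw [hφ]
    simp only
    congr 1
    funext k
    cases x k <;> cases y k <;> cases z k <;> simp [mi3]
  have hsum : xor (xor (φ false false false) (φ true false true))
      (xor (φ false true true) (φ true true false)) = true := by
    rw [p0, p1, p2, p3]
    revert h
    generalize f (fun i => mi3 (x i) (y i) (z i)) = q
    cases q <;> cases f x <;> cases f y <;> cases f z <;> simp [mi3]
  have hface : xor (xor (φ false false false) (φ true false false))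
        (xor (φ false true false) (φ true true false)) = true ∨
      xor (xor (φ false false false) (φ true false false))
        (xor (φ false false true) (φ true false true)) = true ∨
      xor (xor (φ false false false) (φ false true false))
        (xor (φ false false true) (φ false true true)) = true := by
    revert hsum
    generalize φ false false false = v0
    generalize φ true false false = v1
    generalize φ false true false = v2
    generalize φ true true false = v3
    generalize φ false false true = v4
    generalize φ true false true = v5
    generalize φ false true true = v6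
    revert v0 v1 v2 v3 v4 v5 v6
    decide
  rcases hface with h1 | h1 | h1
  · -- variables `a`, `b`
    refine ⟨fun a b w => f (fun k => xor (x k)
      (if xor (x k) (y k) then (if xor (x k) (z k) then w else a) else
        (if xor (x k) (z k) then b else w))), ?_, ?_⟩
    · have h2 := T3_signed hC hN hf x (fun k =>
        if xor (x k) (y k) then (if xor (x k) (z k) then 2 else 0) else
          (if xor (x k) (z k) then 1 else 2))
      unfold T3
      convert h2 using 1
      funext t
      beta_reduce
      congr 1
      funext k
      congr 1
      split_ifs <;> rfl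
    · rw [hφ] at h1
      exact h1
  · -- variables `a`, `c`
    refine ⟨fun a c w => f (fun k => xor (x k)
      (if xor (x k) (y k) then (if xor (x k) (z k) then c else a) else
        (if xor (x k) (z k) then w else w))), ?_, ?_⟩
    · have h2 := T3_signed hC hN hf x (fun k =>
        if xor (x k) (y k) then (if xor (x k) (z k) then 1 else 0) else
          (if xor (x k) (z k) then 2 else 2))
      unfold T3
      convert h2 using 1
      funext t
      beta_reduce
      congr 1
      funext k
      congr 1
      split_ifs <;> rfl
    · rw [hφ] at h1
      exact h1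
  · -- variables `b`, `c`
    refine ⟨fun b c w => f (fun k => xor (x k)
      (if xor (x k) (y k) then (if xor (x k) (z k) then c else w) else
        (if xor (x k) (z k) then b else w))), ?_, ?_⟩
    · have h2 := T3_signed hC hN hf x (fun k =>
        if xor (x k) (y k) then (if xor (x k) (z k) then 1 else 2) else
          (if xor (x k) (z k) then 0 else 2))
      unfold T3
      convert h2 using 1
      funext t
      beta_reduce
      congr 1
      funext k
      congr 1
      split_ifs <;> rfl
    · rw [hφ] at h1
      exact h1

end Pool.Agent.V6.ClA
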