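import Pool.Agent.V6.ClA.Cases
import Pool.Agent.V6.ClA.Forms

/-!
# The statements of `Forms` in terms of `lin`, `vee`, `EU`
-/

set_option autoImplicit false

namespace Pool.Agent.V6.ClA

variable {C D : ∀ n, Set (TF n)}

theorem lin_sub' (hC : IsClone C) (hD : IsClone D) (hL : lin C) (hm : T3 D mi3)
    (hu : ∀ u, U1 C u → U1 D u) : ∀ n, C n ⊆ D n := lin_sub hC hD hL hm hu
theorem lin_eu' (hD : IsClone D) (hL : lin D) (hm : ¬ T3 D mi3) : EU D := lin_eu hD hL hm
theorem vee_sub' (hC : IsClone C) (hD : IsClone D) (hV : vee C) (ho : B2 D orB)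
    (h0 : U1 D (fun _ => false)) (hu : ∀ u, U1 C u → U1 D u) : ∀ n, C n ⊆ D n :=
  vee_sub hC hD hV ho h0 hu
theorem vee_eu' (hD : IsClone D) (hV : vee D) (ho : ¬ B2 D orB) : EU D := vee_eu hD hV ho
theorem nonlin_face' (hC : IsClone C) (hN : U1 C (fun a => !a)) (hL : ¬ lin C) :
    ∃ G, T3 C G ∧ xor (xor (G false false false) (G true false false))
      (xor (G false true false) (G true true false)) = true := by
  unfold lin at hL
  push Not at hL
  obtain ⟨n, f, hf, x, y, z, h⟩ := hL
  exact nonlin_face hC hN hf h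

end Pool.Agent.V6.ClA
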