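import Pool.Agent.V6.ClA.Defs

/-!
# Clones with `∧` and `∨`, self-dual clones with majority
-/

set_option autoImplicit false

namespace Pool.Agent.V6.ClA

variable {C D : ∀ n, Set (TF n)}

def U1 (C : ∀ n, Set (TF n)) (u : Bool → Bool) : Prop := (fun x : Fin 1 → Bool => u (x 0)) ∈ C 0
def B2 (C : ∀ n, Set (TF n)) (b : Bool → Bool → Bool) : Prop :=
  (fun x : Fin 2 → Bool => b (x 0) (x 1)) ∈ C 1
def T3 (C : ∀ n, Set (TF n)) (t : Bool → Bool → Bool → Bool) : Prop :=
  (fun x : Fin 3 → Bool => t (x 0) (x 1) (x 2)) ∈ C 2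

theorem c1 (hC : IsClone C) {u : Bool → Bool} (h : U1 C u) {k : ℕ} {f : TF k} (hf : f ∈ C k) :
    (fun x => u (f x)) ∈ C k :=
  hC.comp 0 k _ (fun _ => f) h (fun _ => hf)

theorem c2 (hC : IsClone C) {b : Bool → Bool → Bool} (h : B2 C b) {k : ℕ} {f g : TF k}
    (hf : f ∈ C k) (hg : g ∈ C k) : (fun x => b (f x) (g x)) ∈ C k :=
  hC.comp 1 k _ ![f, g] h (by intro i; fin_cases i; exacts [hf, hg])

theorem c3 (hC : IsClone C) {t : Bool → Bool → Bool → Bool} (h : T3 C t) {k : ℕ} {f g l : TF k}
    (hf : f ∈ C k) (hg : g ∈ C k) (hl : l ∈ C k) : (fun x => t (f x) (g x) (l x)) ∈ C k :=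
  hC.comp 2 k _ ![f, g, l] h (by intro i; fin_cases i; exacts [hf, hg, hl])

theorem minor (hC : IsClone C) {n m : ℕ} {f : TF n} (hf : f ∈ C n)
    (σ : Fin (n + 1) → Fin (m + 1)) : (fun x => f (fun i => x (σ i))) ∈ C m :=
  hC.comp n m f (fun i x => x (σ i)) hf (fun i => hC.proj m (σ i))

theorem U1_diag (hC : IsClone C) {n : ℕ} {f : TF n} (hf : f ∈ C n) :
    U1 C (fun a => f (fun _ => a)) := minor hC hf (fun _ => 0)

theorem B2_minor (hC : IsClone C) {n : ℕ} {f : TF n} (hf : f ∈ C n) (s : Fin (n + 1) → Bool) :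
    B2 C (fun a b => f (fun i => if s i then a else b)) := by
  have := minor (m := 1) hC hf (fun i => if s i then 0 else 1)
  have e : (fun x : Fin 2 → Bool => f (fun i => x (if s i then 0 else 1))) =
      fun x => f (fun i => if s i then x 0 else x 1) := by
    funext x; congr 1; funext i; split_ifs <;> rfl
  unfold B2
  rw [← e]; exact this

theorem T3_minor (hC : IsClone C) {n : ℕ} {f : TF n} (hf : f ∈ C n) (s t : Fin (n + 1) → Bool) :
    T3 C (fun a b c => f (fun i => if s i then b else if t i then c else a)) := by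
  have := minor (m := 2) hC hf (fun i => if s i then 1 else if t i then 2 else 0)
  have e : (fun x : Fin 3 → Bool => f (fun i => x (if s i then 1 else if t i then 2 else 0))) =
      fun x => f (fun i => if s i then x 1 else if t i then x 2 else x 0) := by
    funext x; congr 1; funext i; split_ifs <;> rfl
  unfold T3
  rw [← e]; exact this

def maj (a b c : Bool) : Bool := (a && b) || (b && c) || (a && c)
def mi3 (a b c : Bool) : Bool := xor (xor a b) c

theorem const_mem (hC : IsClone C) {c : Bool} (h : U1 C (fun _ => c)) (k : ℕ) :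
    (fun _ => c : TF k) ∈ C k := c1 hC h (hC.proj k 0)

/-- no constant one, no negation: zero is preserved -/
theorem pres0 (hC : IsClone C) (h1 : ¬ U1 C (fun _ => true)) (hN : ¬ U1 C (fun a => !a)) {n : ℕ}
    {f : TF n} (hf : f ∈ C n) : f (fun _ => false) = false := by
  by_contra h
  have h' : f (fun _ => false) = true := by simpa using h
  have hd := U1_diag hC hf
  cases h2 : f (fun _ => true)
  · apply hN
    have : (fun a => f (fun _ => a)) = (fun a => !a) := by
      funext a; cases a <;> simp [h', h2]
    rwa [this] at hd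
  · apply h1
    have : (fun a => f (fun _ => a)) = (fun _ => true) := by
      funext a; cases a <;> simp [h', h2]
    rwa [this] at hd

theorem pres1 (hC : IsClone C) (h0 : ¬ U1 C (fun _ => false)) (hN : ¬ U1 C (fun a => !a)) {n : ℕ}
    {f : TF n} (hf : f ∈ C n) : f (fun _ => true) = true := by
  by_contra h
  have h' : f (fun _ => true) = false := by simpa using h
  have hd := U1_diag hC hf
  cases h2 : f (fun _ => false)
  · apply h0
    have : (fun a => f (fun _ => a)) = (fun _ => false) := by
      funext a; cases a <;> simp [h', h2]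
    rwa [this] at hd
  · apply hN
    have : (fun a => f (fun _ => a)) = (fun a => !a) := by
      funext a; cases a <;> simp [h', h2]
    rwa [this] at hd

/-- Baker–Pixley for partial functions -/
theorem bp (hC : IsClone C) (hm : T3 C maj) {n : ℕ} {α : Type} [Finite α]
    (a : α → (Fin (n + 1) → Bool)) (F : α → Bool)
    (h2 : ∀ x y, ∃ g ∈ C n, g (a x) = F x ∧ g (a y) = F y) :
    ∃ g ∈ C n, ∀ x, g (a x) = F x := by
  classical
  have : Fintype α := Fintype.ofFinite α
  have key : ∀ N (S : Finset α), S.card ≤ N → ∃ g ∈ C n, ∀ x ∈ S, g (a x) = F x := by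
    intro N
    induction N with
    | zero =>
      intro S hS
      have : S = ∅ := Finset.card_eq_zero.1 (Nat.le_zero.1 hS)
      subst this
      exact ⟨_, hC.proj n 0, fun x hx => absurd hx (Finset.notMem_empty _)⟩
    | succ N ih =>
      intro S hS
      by_cases h3 : 2 < S.card
      · obtain ⟨x, hx, y, hy, z, hz, hxy, hxz, hyz⟩ := Finset.two_lt_card.1 h3
        have er : ∀ w ∈ S, ∃ g ∈ C n, ∀ x ∈ S.erase w, g (a x) = F x := by
          intro w hw
          apply ih
          rw [Finset.card_erase_of_mem hw]; omega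
        obtain ⟨g1, hg1, k1⟩ := er x hx
        obtain ⟨g2, hg2, k2⟩ := er y hy
        obtain ⟨g3, hg3, k3⟩ := er z hz
        refine ⟨_, c3 hC hm hg1 hg2 hg3, fun w hw => ?_⟩
        have m1 : ∀ s t : Bool, maj s t t = t := by decide
        have m2 : ∀ s t : Bool, maj t s t = t := by decide
        have m3 : ∀ s t : Bool, maj t t s = t := by decide
        by_cases wx : w = x
        · have wy : w ≠ y := by rw [wx]; exact hxy
          have wz : w ≠ z := by rw [wx]; exact hxz
          change maj (g1 (a w)) (g2 (a w)) (g3 (a w)) = F w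
          rw [k2 w (Finset.mem_erase.2 ⟨wy, hw⟩), k3 w (Finset.mem_erase.2 ⟨wz, hw⟩), m1]
        · by_cases wy : w = y
          · have wz : w ≠ z := by rw [wy]; exact hyz
            change maj (g1 (a w)) (g2 (a w)) (g3 (a w)) = F w
            rw [k1 w (Finset.mem_erase.2 ⟨wx, hw⟩), k3 w (Finset.mem_erase.2 ⟨wz, hw⟩), m2]
          · change maj (g1 (a w)) (g2 (a w)) (g3 (a w)) = F w
            rw [k1 w (Finset.mem_erase.2 ⟨wx, hw⟩), k2 w (Finset.mem_erase.2 ⟨wy, hw⟩), m3]
      · rcases Finset.eq_empty_or_nonempty S with rfl | ⟨x, hx⟩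
        · exact ⟨_, hC.proj n 0, fun x hx => absurd hx (Finset.notMem_empty _)⟩
        · rcases Finset.eq_empty_or_nonempty (S.erase x) with he | ⟨y, hy⟩
          · obtain ⟨g, hg, k1, _⟩ := h2 x x
            refine ⟨g, hg, fun w hw => ?_⟩
            have : w = x := by
              by_contra hne
              have := Finset.mem_erase.2 ⟨hne, hw⟩
              rw [he] at this
              exact absurd this (Finset.notMem_empty _)
            rw [this]; exact k1
          · obtain ⟨g, hg, k1, k2⟩ := h2 x y
            refine ⟨g, hg, fun w hw => ?_⟩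
            by_cases hwx : w = x
            · rw [hwx]; exact k1
            · have hwy : w = y := by
                by_contra hne
                apply h3
                rw [Finset.two_lt_card]
                exact ⟨x, hx, y, Finset.mem_of_mem_erase hy, w, hw, (Finset.ne_of_mem_erase hy).symm,
                  fun h => hwx h.symm, fun h => hne h.symm⟩
              rw [hwy]; exact k2
  obtain ⟨g, hg, h⟩ := key _ Finset.univ le_rfl
  exact ⟨g, hg, fun x => h x (Finset.mem_univ x)⟩

/-- the canonical condition from the two-point condition -/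
theorem canon_of_two (hC : IsClone C) (hD : IsClone D) (hDC : ∀ n, D n ⊆ C n) (hm : T3 C maj)
    (H : ∀ X ∈ IStr C, ∀ n (f : PF n), f ∈ X n → ∀ k (h : Fin (n + 1) → TF k),
      (∀ i, h i ∈ C k) → ∀ F : TF k, (∀ x, f (fun i => h i x) = some (F x)) → F ∈ C k →
      ∀ x y, ∃ g ∈ C n, g (fun i => h i x) = F x ∧ g (fun i => h i y) = F y) :
    Nonempty (IStr C ↪o IStr D) := by
  apply canon hC hD hDC
  intro X hX n f hf k h hh F hF hFC hg
  obtain ⟨g, hgC, hgF⟩ := bp hC hm (fun x i => h i x) F
    (H X hX n f hf k h (fun i => hDC _ (hh i)) F hF hFC)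
  have : F = fun x => g (fun i => h i x) := funext fun x => (hgF x).symm
  rw [this]
  exact hg g hgC

end Pool.Agent.V6.ClA
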