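import Pool.Agent.V6.ClA.Cases
import Pool.Agent.V6.ClA.Anti

/-!
# The power set of a countable set embeds into `I_Str(D)` for `D ⊆ T_0^2`
-/

set_option autoImplicit false

namespace Pool.Agent.V6.ClA

variable {C D : ∀ n, Set (TF n)}

section

variable (n : ℕ → ℕ) (G : ∀ j, SimpleGraph (Fin (n j)))

/-- independent sets -/
def Ind (j : ℕ) (c : Fin (n j) → Bool) : Prop :=
  ∀ u v, (G j).Adj u v → ¬ (c u = true ∧ c v = true)

/-- `g` preserves the relation of independent sets -/
def Pres {m : ℕ} (g : PF m) (j : ℕ) : Prop :=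
  ∀ c : Fin (m + 1) → (Fin (n j) → Bool), (∀ l, Ind n G j (c l)) → ∀ w : Fin (n j) → Bool,
    (∀ v, g (fun l => c l v) = some (w v)) → Ind n G j w

def PI (D : ∀ n, Set (TF n)) (I : Set ℕ) : ∀ m, Set (PF m) := fun m =>
  {g | (g (fun _ => false) = none ∨ ∃ f ∈ D m, ∀ x b, g x = some b → f x = b) ∧
    ∀ j ∈ I, Pres n G g j}

theorem T02_zero (hT : T02 D) {m : ℕ} {f : TF m} (hf : f ∈ D m) : f (fun _ => false) = false := by
  by_contra h
  have h' : f (fun _ => false) = true := by simpa using h
  obtain ⟨i, hi, _⟩ := hT m f hf _ _ h' h'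
  simp at hi

theorem PI_mem (hD : IsClone D) (hT : T02 D) (I : Set ℕ) : PI n G D I ∈ IStr D := by
  have htot : ∀ m (f : TF m), tot f ∈ PI n G D I m ↔ f ∈ D m := by
    intro m f
    constructor
    · rintro ⟨h | ⟨f', hf', h⟩, _⟩
      · simp [tot] at h
      · have : f = f' := by
          funext x
          exact (h x _ rfl).symm
        rw [this]; exact hf'
    · intro hf
      refine ⟨Or.inr ⟨f, hf, fun x b hb => Option.some_injective _ hb⟩, ?_⟩
      intro j _ c hc w hw u v huv hcon
      have e : ∀ v, f (fun l => c l v) = w v := fun v => Option.some_injective _ (hw v)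
      obtain ⟨l, h1, h2⟩ := hT m f hf (fun l => c l u) (fun l => c l v) ((e u).trans hcon.1)
        ((e v).trans hcon.2)
      exact hc l u v huv ⟨h1, h2⟩
  refine ⟨⟨fun m i => (htot m _).2 (hD.proj m i), ?_⟩, ?_, htot⟩
  · intro m k f g hf hg
    constructor
    · by_cases hnone : ∃ i, g i (fun _ => false) = none
      · left
        obtain ⟨i, hi⟩ := hnone
        rw [Option.eq_none_iff_forall_ne_some]
        intro b hb
        obtain ⟨y, hy, _⟩ := (comp_eq_some _ _ _ _).1 hb
        rw [hy i] at hi
        simp at hi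
      · push Not at hnone
        have h1 : ∀ i, ∃ f' ∈ D k, ∀ x b, g i x = some b → f' x = b := by
          intro i
          rcases (hg i).1 with h | h
          · exact absurd h (hnone i)
          · exact h
        choose G' hG' hG'' using h1
        rcases hf.1 with h | ⟨F, hF, hF'⟩
        · left
          rw [Option.eq_none_iff_forall_ne_some]
          intro b hb
          obtain ⟨y, hy, hfy⟩ := (comp_eq_some _ _ _ _).1 hb
          have : y = fun _ => false := by
            funext i
            rw [← hG'' i _ _ (hy i)]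
            exact T02_zero hT (hG' i)
          rw [this, h] at hfy
          simp at hfy
        · right
          refine ⟨_, hD.comp m k F G' hF hG', ?_⟩
          intro x b hb
          obtain ⟨y, hy, hfy⟩ := (comp_eq_some _ _ _ _).1 hb
          have : (fun i => G' i x) = y := by
            funext i
            exact hG'' i _ _ (hy i)
          rw [this]
          exact hF' _ _ hfy
    · intro j hj c hc w hw
      have h1 : ∀ v, ∃ y : Fin (m + 1) → Bool, (∀ i, g i (fun l => c l v) = some (y i)) ∧
          f y = some (w v) := fun v => (comp_eq_some _ _ _ _).1 (hw v)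
      choose y hy hfy using h1
      exact hf.2 j hj (fun i v => y v i) (fun i => (hg i).2 j hj c hc _ (fun v => hy v i)) w hfy
  · intro m f g hf hgf
    constructor
    · rcases hf.1 with h | ⟨F, hF, hF'⟩
      · left
        rw [Option.eq_none_iff_forall_ne_some]
        intro b hb
        rw [hgf _ _ hb] at h
        simp at h
      · right
        exact ⟨F, hF, fun x b hb => hF' x b (hgf x b hb)⟩
    · intro j hj c hc w hw
      exact hf.2 j hj c hc w (fun v => hgf _ _ (hw v))

theorem exists_f (hedge : ∀ j, ∃ u v, (G j).Adj u v)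
    (hG : ∀ i j, i ≠ j → IsEmpty (G i →g G j)) (j : ℕ) :
    ∃ (m : ℕ) (f : PF m), f (fun _ => false) = none ∧ ¬ Pres n G f j ∧
      ∀ i, i ≠ j → Pres n G f i := by
  classical
  obtain ⟨N, hN⟩ : ∃ N, Fintype.card (Fin (n j) → Bool) = N + 1 :=
    Nat.exists_eq_succ_of_ne_zero Fintype.card_ne_zero
  let e : Fin (N + 1) ≃ (Fin (n j) → Bool) := (Fintype.equivFinOfCardEq hN).symm
  let col : Fin (N + 1) → Fin (n j) → Bool := fun l => if Ind n G j (e l) then e l else
    fun _ => false
  have hcol : ∀ l, Ind n G j (col l) := by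
    intro l
    by_cases h : Ind n G j (e l)
    · simp only [col, if_pos h]; exact h
    · simp only [col, if_neg h]
      intro u v _ hc
      simp at hc
  have hcol' : ∀ c, Ind n G j c → ∃ l, col l = c := by
    intro c hc
    refine ⟨e.symm c, ?_⟩
    simp only [col, Equiv.apply_symm_apply, if_pos hc]
  let row : Fin (n j) → Fin (N + 1) → Bool := fun v l => col l v
  let f : PF N := fun x => if ∃ v, x = row v then some true else none
  refine ⟨N, f, ?_, ?_, ?_⟩
  · simp only [f]
    rw [if_neg]
    rintro ⟨v, hv⟩
    obtain ⟨l, hl⟩ := hcol' (fun a => decide (a = v)) (by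
      intro a b hab hc
      simp only [decide_eq_true_eq] at hc
      rw [hc.1, hc.2] at hab
      exact (G j).loopless.irrefl _ hab)
    have := congrFun hv l
    simp only [row, hl] at this
    simp at this
  · intro hp
    have := hp col hcol (fun _ => true) (by
      intro v
      simp only [f]
      rw [if_pos ⟨v, rfl⟩])
    obtain ⟨u, v, huv⟩ := hedge j
    exact this u v huv ⟨rfl, rfl⟩
  · intro i hij c hc w hw
    exfalso
    have h1 : ∀ v, ∃ v', (fun l => c l v) = row v' := by
      intro v
      have := hw v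
      simp only [f] at this
      by_contra hcon
      rw [if_neg hcon] at this
      simp at this
    choose φ hφ using h1
    refine (hG i j hij).false ⟨φ, ?_⟩
    intro u v huv
    by_contra hnot
    obtain ⟨l, hl⟩ := hcol' (fun a => decide (a = φ u ∨ a = φ v)) (by
      intro a b hab hcc
      simp only [decide_eq_true_eq] at hcc
      obtain ⟨h2, h3⟩ := hcc
      have hne : a ≠ b := hab.ne
      rcases h2 with rfl | rfl <;> rcases h3 with rfl | rfl
      · exact hne rfl
      · exact hnot hab
      · exact hnot hab.symm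
      · exact hne rfl)
    refine hc l u v huv ⟨?_, ?_⟩
    · have := congrFun (hφ u) l
      simp only [row, hl] at this
      simpa using this
    · have := congrFun (hφ v) l
      simp only [row, hl] at this
      simpa using this

end

theorem power (hD : IsClone D) (hT : T02 D) (C : ∀ n, Set (TF n)) :
    Nonempty (IStr C ↪o IStr D) := by
  obtain ⟨n, G, hedge, hG⟩ := exists_antichain
  obtain ⟨E, hE⟩ := Countable.exists_injective_nat (Σ m, PF m)
  choose mf ff h0 h1 h2 using exists_f n G hedge hG
  let I : (∀ n, Set (PF n)) → Set ℕ := fun X => {j | ¬ ∃ (m : ℕ) (f : PF m), f ∈ X m ∧ E ⟨m, f⟩ = j}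
  have key : ∀ (J : Set ℕ) j, ff j ∈ PI n G D J (mf j) ↔ j ∉ J := by
    intro J j
    constructor
    · intro h hj
      exact h1 j (h.2 j hj)
    · intro hj
      refine ⟨Or.inl (h0 j), fun i hi => h2 j i ?_⟩
      rintro rfl
      exact hj hi
  refine ⟨OrderEmbedding.ofMapLEIff
    (fun X => (⟨PI n G D (I X.1), PI_mem n G hD hT _⟩ : IStr D)) ?_⟩
  rintro ⟨X, hX⟩ ⟨Y, hY⟩
  constructor
  · intro hle m f hf
    change f ∈ Y m
    have hj : E ⟨m, f⟩ ∉ I X := by
      intro h
      exact h ⟨m, f, hf, rfl⟩
    have h3 := hle _ ((key (I X) _).2 hj)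
    have h4 := (key (I Y) _).1 h3
    have h5 : ∃ (m' : ℕ) (f' : PF m'), f' ∈ Y m' ∧ E ⟨m', f'⟩ = E ⟨m, f⟩ := by
      by_contra hcon
      exact h4 hcon
    obtain ⟨m', f', hf', he⟩ := h5
    have := hE he
    cases this
    exact hf'
  · intro hle m g hg
    refine ⟨hg.1, fun j hj => hg.2 j ?_⟩
    intro hcon
    apply hj
    obtain ⟨m', f', hf', he⟩ := hcon
    exact ⟨m', f', hle m' hf', he⟩

end Pool.Agent.V6.ClA
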