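import Pool.Agent.V6.ClA.Asm
import Pool.Agent.V6.ClA.Power
import Pool.Agent.V6.ClA.Dual

/-!
# The main theorem
-/

set_option autoImplicit false

namespace Pool.Agent.V6.ClA

variable {C D : ∀ n, Set (TF n)}

theorem dual_hu (hu : ∀ u, U1 C u → U1 D u) : ∀ u, U1 (dualFam C) u → U1 (dualFam D) u :=
  fun u h => hu (fun a => !(u (!a))) h

/-- both constants, no negation -/
theorem caseD (hC : IsClone C) (hD : IsClone D) (hDC : ∀ n, D n ⊆ C n)
    (hu : ∀ u, U1 C u → U1 D u) (hd0 : U1 D (fun _ => false)) (hd1 : U1 D (fun _ => true))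
    (hcN : ¬ U1 C (fun a => !a)) : Nonempty (IStr C ↪o IStr D) := by
  by_cases hV : vee C
  · exact caseDvee hC hD hDC hu hd0 hV
  have hDC' : ∀ n, dualFam D n ⊆ dualFam C n := fun n f hf => hDC n hf
  have hu' : ∀ u, U1 (dualFam C) u → U1 (dualFam D) u := dual_hu hu
  have hd0' : U1 (dualFam D) (fun _ => false) := hd1
  have hd1' : U1 (dualFam D) (fun _ => true) := hd0
  have hcN' : ¬ U1 (dualFam C) (fun a => !a) := by
    intro h
    apply hcN
    have h' : U1 C (fun a => !(!(!a))) := h
    simpa using h'
  by_cases hV' : vee (dualFam C)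
  · exact dual_embed (caseDvee (dual_clone hC) (dual_clone hD) hDC' hu' hd0' hV')
  · have hc0 : U1 C (fun _ => false) := hDC 0 hd0
    have hc1 : U1 C (fun _ => true) := hDC 0 hd1
    have ha := and_of_mono hC hc0 hc1 (mono_of hC hc0 hc1 hcN) hV
    have hc0' : U1 (dualFam C) (fun _ => false) := hc1
    have hc1' : U1 (dualFam C) (fun _ => true) := hc0
    have ho' := and_of_mono (dual_clone hC) hc0' hc1' (mono_of (dual_clone hC) hc0' hc1' hcN') hV'
    have ho : B2 C orB := by
      refine congrB (b := fun s t => !(andB (!s) (!t))) ho' ?_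
      decide
    exact emb_lattice hC hD hDC ha ho

theorem main (hC : IsClone C) (hD : IsClone D) (hDC : ∀ n, D n ⊆ C n) :
    Nonempty (IStr C ↪o IStr D) := by
  have hDC' : ∀ n, dualFam D n ⊆ dualFam C n := fun n f hf => hDC n hf
  by_cases h0 : T02 D
  · exact power hD h0 C
  by_cases h1 : T12 D
  · exact dual_embed (power (dual_clone hD) (dual_T02 h1) _)
  by_cases hu : ∀ u, U1 C u → U1 D u
  swap
  · push Not at hu
    obtain ⟨u, hu1, hu2⟩ := hu
    have huu : u = (fun _ => u false) ∨ u = (fun a => a) ∨ u = (fun a => !a) := by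
      cases h2 : u false <;> cases h3 : u true
      · left; funext a; cases a <;> simp [h2, h3]
      · right; left; funext a; cases a <;> simp [h2, h3]
      · right; right; funext a; cases a <;> simp [h2, h3]
      · left; funext a; cases a <;> simp [h2, h3]
    rcases huu with h | h | h
    · rw [h] at hu1 hu2
      exact emb_const hC hD hDC _ hu1 hu2
    · rw [h] at hu2
      exact absurd (hD.proj 0 0) hu2
    · rw [h] at hu1 hu2
      exact emb_not hC hD hDC hu1 hu2
  by_cases hN : U1 D (fun a => !a)
  · by_cases hd0 : U1 D (fun _ => false)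
    · exact caseF hC hD hDC hu hN hd0
    · have hd1 : ¬ U1 D (fun _ => true) := by
        intro h
        apply hd0
        have := c1 hD hN h
        simpa [U1] using this
      exact caseE hC hD hDC hu hN (fun h => hd0 (hu _ h)) (fun h => hd1 (hu _ h))
  · have hcN : ¬ U1 C (fun a => !a) := fun h => hN (hu _ h)
    by_cases hd0 : U1 D (fun _ => false) <;> by_cases hd1 : U1 D (fun _ => true)
    · exact caseD hC hD hDC hu hd0 hd1 hcN
    · exact caseB hC hD hDC hu hd0 (fun h => hd1 (hu _ h)) hcN h0
    · -- dual of case B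
      refine dual_embed (caseB (dual_clone hC) (dual_clone hD) hDC' (dual_hu hu)
        hd1 (fun h => hd0 (hu _ h)) ?_ (fun h => h1 (dual_T02' h)))
      intro h
      apply hcN
      have h' : U1 C (fun a => !(!(!a))) := h
      simpa using h'
    · have hc0 : ¬ U1 C (fun _ => false) := fun h => hd0 (hu _ h)
      have hc1 : ¬ U1 C (fun _ => true) := fun h => hd1 (hu _ h)
      exact caseA hC hD hDC hu ⟨fun n f hf => pres0 hC hc1 hcN hf,
        fun n f hf => pres1 hC hc0 hcN hf⟩ h0 h1

end Pool.Agent.V6.ClA
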